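import Pool.Agent.Helper10.Ram5.Lat
import Pool.Agent.Helper68.Ram5.Diff
import Pool.Agent.Helper64.Ram5.U1
import Pool.Agent.Helper50.Ram5.U2b
import Pool.Agent.Helper13.Ram5.Energy
import Pool.Agent.Helper79.Ram5.M
import Pool.Agent.Helper44.Ram5.W
import Pool.Agent.Helper47.Ram5.S
import Pool.Agent.Helper34.Ram5.AUp
import Pool.Agent.Helper83.Ram5.ALow

set_option autoImplicit false

/-!
# All modules collected under one namespace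
-/

namespace Pool.Agent.Helper10.Ram5

open MeasureTheory Topology
open scoped Quaternion

/-! ## Module G_alg : algebra of the action -/

theorem nrd_mul (g h : GL2H) : nrd (g * h).1 = nrd g.1 * nrd h.1 :=
  Pool.Agent.Helper13.Ram5.nrd_mul g h

theorem nrd_nonneg (g : Matrix (Fin 2) (Fin 2) ℍ[ℝ]) : 0 ≤ nrd g :=
  Pool.Agent.Helper13.Ram5.nrd_nonneg g

theorem nrd_one' : nrd (1 : GL2H).1 = 1 :=
  Pool.Agent.Helper13.Ram5.nrd_one'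

theorem nrd_inv (g : GL2H) (hg : nrd g.1 = 1) : nrd (g⁻¹).1 = 1 :=
  Pool.Agent.Helper13.Ram5.nrd_inv g hg

theorem nrd_trans (x : ℍ[ℝ]) : nrd (trans x).1 = 1 :=
  Pool.Agent.Helper13.Ram5.nrd_trans x

theorem den_pos (g : GL2H) {p : Pt} (hp : p ∈ UH) : 0 < den g p :=
  Pool.Agent.Helper13.Ram5.den_pos g hp

theorem act_mem (g : GL2H) {p : Pt} (hp : p ∈ UH) : act g p ∈ UH :=
  Pool.Agent.Helper13.Ram5.act_mem g hp

theorem act_mul (g h : GL2H) (hh : nrd h.1 = 1) {p : Pt} (hp : p ∈ UH) :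
    act (g * h) p = act g (act h p) :=
  Pool.Agent.Helper13.Ram5.act_mul g h hh hp

theorem act_one (p : Pt) : act 1 p = p :=
  Pool.Agent.Helper13.Ram5.act_one p

theorem den_mul (g h : GL2H) (hh : nrd h.1 = 1) {p : Pt} (hp : p ∈ UH) :
    den (g * h) p = den g (act h p) * den h p :=
  Pool.Agent.Helper13.Ram5.den_mul g h hh hp

theorem act_trans (x : ℍ[ℝ]) (p : Pt) : act (trans x) p = (p.1 + x, p.2) :=
  Pool.Agent.Helper13.Ram5.act_trans x p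

/-- `|a z + b|² + |a|² r² = (|z'|² + r'²) den` where `(z', r') = act g (z, r)` -/
theorem top_row (g : GL2H) (hg : nrd g.1 = 1) {p : Pt} (hp : p ∈ UH) :
    ‖g.1 0 0 * p.1 + g.1 0 1‖ ^ 2 + ‖g.1 0 0‖ ^ 2 * p.2 ^ 2
      = (‖(act g p).1‖ ^ 2 + (act g p).2 ^ 2) * den g p :=
  Pool.Agent.Helper13.Ram5.top_row g hg hp

/-- the action multiplies Euclidean distances by the square root of the product of the height
ratios -/
theorem dist_act (g : GL2H) (hg : nrd g.1 = 1) {p q : Pt} (hp : p ∈ UH) (hq : q ∈ UH) :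
    (‖(act g p).1 - (act g q).1‖ ^ 2 + ((act g p).2 - (act g q).2) ^ 2) * (den g p * den g q)
      = ‖p.1 - q.1‖ ^ 2 + (p.2 - q.2) ^ 2 :=
  Pool.Agent.Helper13.Ram5.dist_act g hg hp hq

/-! ## Module G_diff : differential geometry of the action -/

theorem contDiffOn_act (g : GL2H) : ContDiffOn ℝ 2 (act g) UH :=
  Pool.Agent.Helper68.Ram5.contDiffOn_act g

theorem measurable_act (g : GL2H) : Measurable (act g) :=
  Pool.Agent.Helper68.Ram5.measurable_act g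

/-- isometry: the bilinear gradient product is invariant -/
theorem gdot_comp_act (g : GL2H) (hg : nrd g.1 = 1) {p : Pt} (hp : p ∈ UH) {f h : Pt → ℂ}
    (hf : DifferentiableAt ℝ f (act g p)) (hh : DifferentiableAt ℝ h (act g p)) :
    gdot (fun q => f (act g q)) (fun q => h (act g q)) p = gdot f h (act g p) :=
  Pool.Agent.Helper68.Ram5.gdot_comp_act g hg hp hf hh

theorem gsq_comp_act (g : GL2H) (hg : nrd g.1 = 1) {p : Pt} (hp : p ∈ UH) {f : Pt → ℂ}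
    (hf : DifferentiableAt ℝ f (act g p)) :
    gsq (fun q => f (act g q)) p = gsq f (act g p) :=
  Pool.Agent.Helper68.Ram5.gsq_comp_act g hg hp hf

/-- invariance of the hyperbolic measure -/
theorem measurePreserving_act (g : GL2H) (hg : nrd g.1 = 1) :
    MeasurePreserving (act g) hyp hyp :=
  Pool.Agent.Helper68.Ram5.measurePreserving_act g hg

/-! ## Module U1, U2 : discreteness, partition of unity, unfolding -/

theorem countable_Gam {R : Subring ℍ[ℝ]} (hR : NiceRing R) : Countable (Gam R) :=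
  Pool.Agent.Helper64.Ram5.countable_Gam hR

theorem local_finite {R : Subring ℍ[ℝ]} (hR : NiceRing R) {p : Pt} (hp : p ∈ UH) (C a : ℝ)
    (ha : 0 < a) :
    ∃ U ∈ 𝓝 p, U ⊆ UH ∧
      {γ : Gam R | ∃ q ∈ U, ‖(act γ q).1‖ ≤ C ∧ a ≤ (act γ q).2}.Finite :=
  Pool.Agent.Helper64.Ram5.local_finite hR hp C a ha

theorem exists_kap {R : Subring ℍ[ℝ]} (hR : NiceRing R) {C a : ℝ} (ha : 0 < a)
    (hcov : Covers R C a) : ∃ (κ : Pt → ℝ) (C' a' : ℝ), Kap R κ C' a' :=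
  Pool.Agent.Helper64.Ram5.exists_kap hR ha hcov

/-- the facts used by the unfolding module -/
theorem algHyp : Pool.Agent.Helper50.Ram5.AlgHyp :=
  ⟨fun g _ hp => act_mem g hp, fun g h hh _ hp => act_mul g h hh hp, act_one, measurable_act,
    measurePreserving_act⟩

theorem unfold {R : Subring ℍ[ℝ]} (hR : NiceRing R) {κ : Pt → ℝ} {C a : ℝ} (hK : Kap R κ C a)
    (η F : Pt → ENNReal) (hη : Measurable η) (hF : Measurable F)
    (hinv : ∀ γ ∈ Gam R, ∀ p ∈ UH, F (act γ p) = F p) :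
    ∫⁻ p, η p * F p ∂hyp
      = ∫⁻ p, ENNReal.ofReal (κ p) * (∑' γ : Gam R, η (act γ p)) * F p ∂hyp :=
  Pool.Agent.Helper50.Ram5.unfold_aux algHyp hR hK η F hη hF hinv

/-- strip unfolding (cusp cell), with an unspecified constant `K` -/
theorem strip_unfold {R : Subring ℍ[ℝ]} (hR : NiceRing R) (hτ : IsLat R)
    {κ : Pt → ℝ} {C a : ℝ} (hK : Kap R κ C a) :
    ∃ K : ENNReal, K ≠ 0 ∧ K ≠ ⊤ ∧ ∀ (ψ : ℝ → ENNReal) (F : Pt → ENNReal), Measurable ψ →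
      Measurable F → (∀ γ ∈ Gam R, ∀ p ∈ UH, F (act γ p) = F p) →
      ∫⁻ r in Set.Ioi (0 : ℝ), ψ r * cellInt 1 F r * ENNReal.ofReal ((r ^ 5)⁻¹)
        = K * ∫⁻ p, ENNReal.ofReal (κ p) * (∑' v : Prim R, ψ (1 / uval v p)) * F p ∂hyp :=
  Pool.Agent.Helper50.Ram5.strip_unfold_aux algHyp hR hτ hK

/-! ## Module E : energy identity for square-integrable eigen-systems -/

/-- Green's formula -/
theorem green {u : Pt → ℂ} (hu : ContDiffOn ℝ 2 u UH) (lam : ℂ)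
    (heig : ∀ p ∈ UH, lap u p = -lam * u p) : WeakEig lam u :=
  Pool.Agent.Helper13.Ram5.green hu lam heig

theorem weakEig_comp (g : GL2H) (hg : nrd g.1 = 1) {u : Pt → ℂ} (hu : ContDiffOn ℝ 1 u UH)
    {lam : ℂ} (h : WeakEig lam u) : WeakEig lam (fun p => u (act g p)) :=
  Pool.Agent.Helper13.Ram5.weakEig_comp g hg hu h

theorem energy {R : Subring ℍ[ℝ]} (hR : NiceRing R) {κ : Pt → ℝ} {C a : ℝ} (hK : Kap R κ C a)
    {ι : Type} [Fintype ι] {u : ι → Pt → ℂ} (hS : Sys R ι u) (lam : ℂ)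
    (heig : ∀ i, WeakEig lam (u i))
    (hfin : ∫⁻ p, ENNReal.ofReal (κ p) * ENNReal.ofReal (∑ i, ‖u i p‖ ^ 2) ∂hyp ≠ ⊤) :
    (∫⁻ p, ENNReal.ofReal (κ p) * ENNReal.ofReal (∑ i, gsq (u i) p) ∂hyp
      ≤ ENNReal.ofReal lam.re *
        ∫⁻ p, ENNReal.ofReal (κ p) * ENNReal.ofReal (∑ i, ‖u i p‖ ^ 2) ∂hyp) ∧
    (lam.im = 0 ∨
      ∫⁻ p, ENNReal.ofReal (κ p) * ENNReal.ofReal (∑ i, ‖u i p‖ ^ 2) ∂hyp = 0) :=
  Pool.Agent.Helper13.Ram5.energy hR hK hS lam heig hfin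

/-! ## Module M : torus averages -/

theorem cellInt_mul {R : Subring ℍ[ℝ]} (hτ : IsLat R) {ν : ℍ[ℝ]} (hν : ν ∈ R) (hν0 : ν ≠ 0)
    (F : Pt → ENNReal) (hF : Measurable F)
    (hper : ∀ x ∈ R, ∀ z : ℍ[ℝ], ∀ r : ℝ, 0 < r → F (z + x, r) = F (z, r)) {r : ℝ}
    (hr : 0 < r) : cellInt ν F r = cellInt 1 F r :=
  Pool.Agent.Helper79.Ram5M.cellInt_mul hτ hν hν0 F hF hper hr

/-! ## Module W : Wirtinger inequality on the torus `ℍ / ν Hur` -/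

theorem wirtinger {ν : ℍ[ℝ]} (hν0 : ν ≠ 0) {u : Pt → ℂ} (hu : ContDiffOn ℝ 1 u UH)
    (hper : ∀ x ∈ Hur, ∀ p ∈ UH, u (p.1 + ν * x, p.2) = u p) {r : ℝ} (hr : 0 < r)
    (hmean : ∫ x in Set.Icc (0 : Fin 4 → ℝ) 1, u (ν * par x, r) = 0) :
    ENNReal.ofReal (8 * Real.pi ^ 2 / ‖ν‖ ^ 2) *
        cellInt ν (fun p => ENNReal.ofReal (‖u p‖ ^ 2)) r
      ≤ cellInt ν (fun p => ENNReal.ofReal (∑ k : Fin 4, ‖pd (dir k.castSucc) u p‖ ^ 2)) r :=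
  Pool.Agent.Helper44.Ram5.wirtinger hν0 hu hper hr hmean

/-! ## Module S : radial inequality -/

/-- one more piece to the left -/
theorem Tail.cons {ψ Q : ℝ → ℝ} {μ : ℝ} (hμ : 0 ≤ μ) (hψ0 : ∀ r, 0 < r → 0 ≤ ψ r)
    (hQ0 : ∀ r, 0 < r → 0 ≤ Q r) {x y Tx Ty : ℝ} (p0 p1 t0 t1 : ℝ) (hx : 0 < x) (hxy : x ≤ y)
    (hTx : Tx = t0 + t1 * x) (hTy : Ty = t0 + t1 * y)
    (hP : ∀ r ∈ Set.Icc x y, ψ r = p0 - p1 / r)
    (hQ : ∀ r ∈ Set.Ioo x y, Q r ≤ qq p0 p1 t0 t1 μ r)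
    (hT : Tail ψ Q μ y Ty) : Tail ψ Q μ x Tx :=
  Pool.Agent.Helper47.Ram5.Tail.cons hμ hψ0 hQ0 p0 p1 t0 t1 hx hxy hTx hTy hP hQ hT

/-- the last piece -/
theorem Tail.last {ψ Q : ℝ → ℝ} {μ : ℝ} (hμ : 0 ≤ μ) (hψ0 : ∀ r, 0 < r → 0 ≤ ψ r)
    (hQ0 : ∀ r, 0 < r → 0 ≤ Q r) {x Tx m : ℝ} (t0 t1 : ℝ) (hx : 0 < x) (hTx : Tx = t0 + t1 * x)
    (hP : ∀ r, x ≤ r → ψ r = m) (hQ : ∀ r, x < r → Q r ≤ qq m 0 t0 t1 μ r) :
    Tail ψ Q μ x Tx :=
  Pool.Agent.Helper47.Ram5.Tail.last hμ hψ0 hQ0 t0 t1 hx hTx hP hQ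

theorem strip_of_tail {ψ Q : ℝ → ℝ} {μ : ℝ} (hμ : 0 ≤ μ) (hψm : Measurable ψ)
    (hψ0 : ∀ r, 0 < r → 0 ≤ ψ r) (hQm : Measurable Q) (hQ0 : ∀ r, 0 < r → 0 ≤ Q r)
    {x T : ℝ} (hx : 0 ≤ x) (hψx : ψ x = 0) (hQx : ∀ r, 0 < r → r < x → Q r = 0)
    (hT : Tail ψ Q μ x T) {ν : ℍ[ℝ]} {u : Pt → ℂ}
    (hu : ContDiffOn ℝ 1 u UH) {B : ℝ} (hB : ∀ p ∈ UH, ‖u p‖ ≤ B)
    (hW : ∀ r : ℝ, 0 < r → ENNReal.ofReal μ * cellInt ν (fun p => ENNReal.ofReal (‖u p‖ ^ 2)) r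
      ≤ cellInt ν (fun p => ENNReal.ofReal (∑ k : Fin 4, ‖pd (dir k.castSucc) u p‖ ^ 2)) r) :
    ∫⁻ r in Set.Ioi (0 : ℝ), ENNReal.ofReal (Q r) *
        cellInt ν (fun p => ENNReal.ofReal (‖u p‖ ^ 2)) r * ENNReal.ofReal ((r ^ 5)⁻¹)
      ≤ ∫⁻ r in Set.Ioi (0 : ℝ), ENNReal.ofReal (ψ r) *
        cellInt ν (fun p => ENNReal.ofReal (gsq u p)) r * ENNReal.ofReal ((r ^ 5)⁻¹) :=
  Pool.Agent.Helper47.Ram5.strip_of_tail hμ hψm hψ0 hQm hQ0 hx hψx hQx hT hu hB hW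

/-! ## Module A : arithmetic / height inequalities -/

theorem isLat_Hur : IsLat Hur :=
  Pool.Agent.Helper10.Ram5L.isLat_Hur

theorem niceRing_Hur : NiceRing Hur :=
  Pool.Agent.Helper10.Ram5L.niceRing_Hur

theorem covers_Hur : Covers Hur 1 (7 / 10) :=
  Pool.Agent.Helper10.Ram5L.covers_Hur

theorem upper_Hur {p : Pt} (hp : p ∈ UH) :
    ∑' v : Prim Hur, ENNReal.ofReal (psi (153 / 100) (103 / 100) (1 / uval v p))
      ≤ ENNReal.ofReal (24 * (133 / 100)) :=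
  Pool.Agent.Helper34.Ram5.upper_Hur hp

theorem lower_Hur {p : Pt} (hp : p ∈ UH) :
    ENNReal.ofReal (4 * (24 * (133 / 100))) ≤
      ∑' v : Prim Hur,
        ENNReal.ofReal (Qf (153 / 100) (79 / 10) (98 / 100) (532 / 100) (1 / uval v p)) :=
  Pool.Agent.Helper83.Ram5.lower_Hur_aux (fun g _ hq => act_mem g hq)
    (fun g h hh _ hq => act_mul g h hh hq) (fun g _ hq => den_pos g hq) niceRing_Hur hp

end Pool.Agent.Helper10.Ram5
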