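import Pool.Agent.Helper10.Ram5.Piece

set_option autoImplicit false

/-!
# Radial certificate in dimension 5 (generated)
-/

namespace Pool.Agent.Helper10.Ram5

open MeasureTheory Set Filter Topology

theorem h5_l1 {r : ℝ} (h1 : 100 / 153 ≤ r) (h2 : r ≤ 2) :
    psi (153 / 100) (103 / 100) r = 153 / 100 - 1 / r :=
  psi_line (by linarith) (by linarith) (by linarith)

theorem h5_l3 {r : ℝ} (h1 : 2 ≤ r) : psi (153 / 100) (103 / 100) r = 103 / 100 :=
  psi_cap (by norm_num) (by linarith) (by linarith)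

theorem h5_q1 {r : ℝ} (h1 : 100 / 153 ≤ r) (h2 : r < 98 / 100) :
    Qf (153 / 100) (79 / 10) (98 / 100) (532 / 100) r = 79 / 10 * (153 / 100) + (-(79 / 10)) / r :=
  Qf_low (by norm_num) (by linarith) (by linarith) h2

theorem h5_q2 {r : ℝ} (h1 : 98 / 100 ≤ r) : Qf (153 / 100) (79 / 10) (98 / 100) (532 / 100) r = 532 / 100 := Qf_high h1

theorem h5_tail : Tail (psi (153 / 100) (103 / 100))
    (Qf (153 / 100) (79 / 10) (98 / 100) (532 / 100)) (877 / 100) (100 / 153) (-3 / 250) := by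
  have hμ : (0 : ℝ) ≤ (877 / 100) := by norm_num
  have hψ0 : ∀ r : ℝ, 0 < r → 0 ≤ psi (153 / 100) (103 / 100) r :=
    fun r _ => psi_nonneg _ _ r
  have hQ0 : ∀ r : ℝ, 0 < r → 0 ≤ Qf (153 / 100) (79 / 10) (98 / 100) (532 / 100) r :=
    fun r _ => Qf_nonneg (by norm_num) r
  have h8 : Tail (psi (153 / 100) (103 / 100)) (Qf (153 / 100) (79 / 10) (98 / 100) (532 / 100))
      (877 / 100) 2 (-2129 / 500) :=
    last5 (m := 103 / 100) (M := 532 / 100) hμ hψ0 hQ0 (771 / 500) (-29 / 10) (by norm_num) (by norm_num)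
      (fun r hr => h5_l3 hr)
      (fun r hr => le_of_eq (h5_q2 (le_trans (by norm_num) hr.le)))
      (by rintro _ _ _ rfl rfl rfl; norm_num)
  have h7 : Tail (psi (153 / 100) (103 / 100)) (Qf (153 / 100) (79 / 10) (98 / 100) (532 / 100))
      (877 / 100) (27 / 20) (-2367 / 1000) :=
    cons5 hμ hψ0 hQ0 (153 / 100) 1 (532 / 100) 0 (10143 / 6500) (-1891 / 650) (by norm_num) (by norm_num)
      (by norm_num) (by norm_num)
      (fun r hr => h5_l1 (le_trans (by norm_num) hr.1) (le_trans hr.2 (by norm_num)))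
      (fun r hr => by rw [h5_q2 (le_trans (by norm_num) hr.1.le)]; simp)
      (by rintro _ _ _ _ rfl rfl rfl rfl; norm_num) h8
  have h6 : Tail (psi (153 / 100) (103 / 100)) (Qf (153 / 100) (79 / 10) (98 / 100) (532 / 100))
      (877 / 100) (117 / 100) (-1769 / 1000) :=
    cons5 hμ hψ0 hQ0 (153 / 100) 1 (532 / 100) 0 (1059 / 500) (-299 / 90) (by norm_num) (by norm_num)
      (by norm_num) (by norm_num)
      (fun r hr => h5_l1 (le_trans (by norm_num) hr.1) (le_trans hr.2 (by norm_num)))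
      (fun r hr => by rw [h5_q2 (le_trans (by norm_num) hr.1.le)]; simp)
      (by rintro _ _ _ _ rfl rfl rfl rfl; norm_num) h7
  have h5 : Tail (psi (153 / 100) (103 / 100)) (Qf (153 / 100) (79 / 10) (98 / 100) (532 / 100))
      (877 / 100) (27 / 25) (-57 / 40) :=
    cons5 hμ hψ0 hQ0 (153 / 100) 1 (532 / 100) 0 (2703 / 1000) (-172 / 45) (by norm_num) (by norm_num)
      (by norm_num) (by norm_num)
      (fun r hr => h5_l1 (le_trans (by norm_num) hr.1) (le_trans hr.2 (by norm_num)))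
      (fun r hr => by rw [h5_q2 (le_trans (by norm_num) hr.1.le)]; simp)
      (by rintro _ _ _ _ rfl rfl rfl rfl; norm_num) h6
  have h4 : Tail (psi (153 / 100) (103 / 100)) (Qf (153 / 100) (79 / 10) (98 / 100) (532 / 100))
      (877 / 100) (51 / 50) (-1161 / 1000) :=
    cons5 hμ hψ0 hQ0 (153 / 100) 1 (532 / 100) 0 (3327 / 1000) (-22 / 5) (by norm_num) (by norm_num)
      (by norm_num) (by norm_num)
      (fun r hr => h5_l1 (le_trans (by norm_num) hr.1) (le_trans hr.2 (by norm_num)))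
      (fun r hr => by rw [h5_q2 (le_trans (by norm_num) hr.1.le)]; simp)
      (by rintro _ _ _ _ rfl rfl rfl rfl; norm_num) h5
  have h3 : Tail (psi (153 / 100) (103 / 100)) (Qf (153 / 100) (79 / 10) (98 / 100) (532 / 100))
      (877 / 100) (49 / 50) (-481 / 500) :=
    cons5 hμ hψ0 hQ0 (153 / 100) 1 (532 / 100) 0 (7827 / 2000) (-199 / 40) (by norm_num) (by norm_num)
      (by norm_num) (by norm_num)
      (fun r hr => h5_l1 (le_trans (by norm_num) hr.1) (le_trans hr.2 (by norm_num)))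
      (fun r hr => by rw [h5_q2 (le_trans (by norm_num) hr.1.le)]; simp)
      (by rintro _ _ _ _ rfl rfl rfl rfl; norm_num) h4
  have h2 : Tail (psi (153 / 100) (103 / 100)) (Qf (153 / 100) (79 / 10) (98 / 100) (532 / 100))
      (877 / 100) (87 / 100) (-663 / 1000) :=
    cons5 hμ hψ0 hQ0 (153 / 100) 1 (79 / 10 * (153 / 100)) (-(79 / 10)) (468 / 275) (-299 / 110) (by norm_num) (by norm_num)
      (by norm_num) (by norm_num)
      (fun r hr => h5_l1 (le_trans (by norm_num) hr.1) (le_trans hr.2 (by norm_num)))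
      (fun r hr => le_of_eq (h5_q1 (le_trans (by norm_num) hr.1.le)
        (lt_of_lt_of_le hr.2 (by norm_num))))
      (by rintro _ _ _ _ rfl rfl rfl rfl; norm_num) h3
  have h1 : Tail (psi (153 / 100) (103 / 100)) (Qf (153 / 100) (79 / 10) (98 / 100) (532 / 100))
      (877 / 100) (3 / 4) (-307 / 1000) :=
    cons5 hμ hψ0 hQ0 (153 / 100) 1 (79 / 10 * (153 / 100)) (-(79 / 10)) (959 / 500) (-89 / 30) (by norm_num) (by norm_num)
      (by norm_num) (by norm_num)
      (fun r hr => h5_l1 (le_trans (by norm_num) hr.1) (le_trans hr.2 (by norm_num)))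
      (fun r hr => le_of_eq (h5_q1 (le_trans (by norm_num) hr.1.le)
        (lt_of_lt_of_le hr.2 (by norm_num))))
      (by rintro _ _ _ _ rfl rfl rfl rfl; norm_num) h2
  have h0 : Tail (psi (153 / 100) (103 / 100)) (Qf (153 / 100) (79 / 10) (98 / 100) (532 / 100))
      (877 / 100) (100 / 153) (-3 / 250) :=
    cons5 hμ hψ0 hQ0 (153 / 100) 1 (79 / 10 * (153 / 100)) (-(79 / 10)) (497 / 250) (-153 / 50) (by norm_num) (by norm_num)
      (by norm_num) (by norm_num)
      (fun r hr => h5_l1 (le_trans (by norm_num) hr.1) (le_trans hr.2 (by norm_num)))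
      (fun r hr => le_of_eq (h5_q1 (le_trans (by norm_num) hr.1.le)
        (lt_of_lt_of_le hr.2 (by norm_num))))
      (by rintro _ _ _ _ rfl rfl rfl rfl; norm_num) h1
  exact h0

end Pool.Agent.Helper10.Ram5
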