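import Mathlib

set_option autoImplicit false

/-!
# Upper half-space model of hyperbolic 5-space and `GL₂` over the Hurwitz order

Points are pairs `(z, r)` with `z` a real quaternion and `r` a real number; hyperbolic 5-space is
the part `0 < r`.
-/

namespace Pool.Agent.Helper10.Ram5

open MeasureTheory
open scoped Quaternion

/-- ambient space `ℍ × ℝ` of the upper half-space model -/
abbrev Pt := ℍ[ℝ] × ℝ

/-- the group `GL₂(ℍ)` of invertible `2 × 2` matrices of real quaternions -/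
abbrev GL2H := (Matrix (Fin 2) (Fin 2) ℍ[ℝ])ˣ

/-- the upper half-space (hyperbolic 5-space) -/
def UH : Set Pt := {p | 0 < p.2}

/-- `|c z + d|² + |c|² r²` for `g = (a b; c d)` and `p = (z, r)` -/
noncomputable def den (g : GL2H) (p : Pt) : ℝ :=
  ‖g.1 1 0 * p.1 + g.1 1 1‖ ^ 2 + ‖g.1 1 0‖ ^ 2 * p.2 ^ 2

/-- the action of a matrix `g = (a b; c d)` of Dieudonné determinant `1` (in particular of every
element of `GL₂` of the Hurwitz order) on the upper half-space by orientation preserving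
isometries: `(z, r)` is sent to `((a z + b) (c z + d)* + r² a c*, r)` divided by
`|c z + d|² + |c|² r²` -/
noncomputable def act (g : GL2H) (p : Pt) : Pt :=
  ((den g p)⁻¹ • ((g.1 0 0 * p.1 + g.1 0 1) * star (g.1 1 0 * p.1 + g.1 1 1)
      + p.2 ^ 2 • (g.1 0 0 * star (g.1 1 0))),
    p.2 / den g p)

/-- the five coordinate directions of `ℍ × ℝ` -/
noncomputable def dir : Fin 5 → Pt :=
  ![(⟨1, 0, 0, 0⟩, 0), (⟨0, 1, 0, 0⟩, 0), (⟨0, 0, 1, 0⟩, 0), (⟨0, 0, 0, 1⟩, 0), (0, 1)]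

/-- directional derivative -/
noncomputable def pd (e : Pt) (f : Pt → ℂ) (p : Pt) : ℂ := fderiv ℝ f p e

/-- hyperbolic Laplacian `r² (∑ of the five second coordinate derivatives) - 3 r ∂/∂r` -/
noncomputable def lap (f : Pt → ℂ) (p : Pt) : ℂ :=
  (p.2 : ℂ) ^ 2 * (∑ k : Fin 5, pd (dir k) (pd (dir k) f) p) - 3 * (p.2 : ℂ) * pd (dir 4) f p

/-- `GL₂(R)` as a subgroup of `GL₂(ℍ)`, for a subring `R` of the real quaternions -/
noncomputable def Gam (R : Subring ℍ[ℝ]) : Subgroup GL2H :=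
  (Units.map (RingHom.mapMatrix (m := Fin 2) R.subtype :
    Matrix (Fin 2) (Fin 2) R →* Matrix (Fin 2) (Fin 2) ℍ[ℝ])).range

/-- the translation matrix `(1 x; 0 1)` -/
noncomputable def trans (x : ℍ[ℝ]) : GL2H :=
  ⟨!![1, x; 0, 1], !![1, -x; 0, 1],
    Matrix.ext fun i j => by
      fin_cases i <;> fin_cases j <;> simp [Matrix.mul_apply, Fin.sum_univ_two],
    Matrix.ext fun i j => by
      fin_cases i <;> fin_cases j <;> simp [Matrix.mul_apply, Fin.sum_univ_two]⟩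

/-- the Hurwitz order: the ring generated by `i`, `j` and `(1 + i + j + k) / 2` -/
def Hur : Subring ℍ[ℝ] :=
  Subring.closure {⟨0, 1, 0, 0⟩, ⟨0, 0, 1, 0⟩, ⟨1 / 2, 1 / 2, 1 / 2, 1 / 2⟩}

/-- `x₀ + x₁ i + x₂ j + x₃ (1 + i + j + k) / 2`; maps `ℤ⁴` onto the Hurwitz order -/
noncomputable def par (x : Fin 4 → ℝ) : ℍ[ℝ] :=
  ⟨x 0 + x 3 / 2, x 1 + x 3 / 2, x 2 + x 3 / 2, x 3 / 2⟩

end Pool.Agent.Helper10.Ram5
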