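import Pool.Agent.Helper10.Ram5.Cert
import Pool.Agent.Helper34.Ram5.Hurw

set_option autoImplicit false

/-!
# Assembly of the lower bound for the cuspidal eigenvalues
-/

namespace Pool.Agent.Helper10.Ram5

open MeasureTheory Topology
open scoped ENNReal Quaternion

theorem isOpen_UH : IsOpen UH := isOpen_lt continuous_const continuous_snd

theorem measurableSet_UH : MeasurableSet UH := isOpen_UH.measurableSet

theorem ae_hyp_mem : ∀ᵐ p ∂hyp, p ∈ UH :=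
  (withDensity_absolutelyContinuous _ _).ae_le (ae_restrict_mem measurableSet_UH)

theorem lintegral_hyp (F : Pt → ℝ≥0∞) (hF : Measurable F) :
    ∫⁻ p, F p ∂hyp = ∫⁻ p in UH, ENNReal.ofReal ((p.2 ^ 5)⁻¹) * F p := by
  rw [hyp, lintegral_withDensity_eq_lintegral_mul _ (by fun_prop) hF]
  rfl

theorem measurableSet_siegel (C a : ℝ) : MeasurableSet {p : Pt | ‖p.1‖ ≤ C ∧ a ≤ p.2} := by
  have : {p : Pt | ‖p.1‖ ≤ C ∧ a ≤ p.2} = {p : Pt | ‖p.1‖ ≤ C} ∩ {p : Pt | a ≤ p.2} := rfl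
  rw [this]
  exact (measurableSet_le measurable_fst.norm measurable_const).inter
    (measurableSet_le measurable_const measurable_snd)

/-- the hyperbolic volume of a Siegel-type set is finite -/
theorem hyp_siegel (C a : ℝ) (ha : 0 < a) : hyp {p : Pt | ‖p.1‖ ≤ C ∧ a ≤ p.2} < ⊤ := by
  have hmeas := measurableSet_siegel C a
  have h1 : hyp {p : Pt | ‖p.1‖ ≤ C ∧ a ≤ p.2}
      ≤ ∫⁻ p : Pt in (Metric.closedBall (0:ℍ[ℝ]) C) ×ˢ (Set.Ici a), ENNReal.ofReal ((p.2 ^ 5)⁻¹) := by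
    rw [hyp, withDensity_apply _ hmeas]
    rw [Measure.restrict_restrict hmeas]
    apply lintegral_mono' (Measure.restrict_mono ?_ le_rfl) le_rfl
    rintro p ⟨⟨h1, h2⟩, h3⟩
    exact ⟨by simpa using h1, h2⟩
  refine lt_of_le_of_lt h1 ?_
  rw [show (volume : Measure Pt) = (volume : Measure ℍ[ℝ]).prod (volume : Measure ℝ) from rfl,
    ← Measure.prod_restrict]
  rw [lintegral_prod _ (by fun_prop)]
  simp only
  rw [lintegral_const]
  apply ENNReal.mul_lt_top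
  · have : IntegrableOn (fun r : ℝ => (r ^ 5)⁻¹) (Set.Ici a) := by
      have h := integrableOn_Ioi_rpow_of_lt (a := -5) (by norm_num) ha
      rw [integrableOn_Ici_iff_integrableOn_Ioi]
      refine h.congr_fun ?_ measurableSet_Ioi
      intro x hx
      have hx0 : 0 < x := lt_trans ha hx
      simp only
      rw [show (-5 : ℝ) = -((5 : ℕ) : ℝ) by norm_num, Real.rpow_neg hx0.le, Real.rpow_natCast]
    exact this.lintegral_lt_top
  · rw [Measure.restrict_apply_univ]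
    exact measure_closedBall_lt_top

theorem Kap.le_one {R : Subring ℍ[ℝ]} {κ : Pt → ℝ} {C a : ℝ} (hK : Kap R κ C a) {p : Pt}
    (hp : p ∈ UH) : κ p ≤ 1 := by
  have h := hK.sum p hp
  have h1 := le_hasSum h (1 : Gam R) (fun j _ => hK.nonneg _)
  simpa [act_one] using h1

theorem Kap.lintegral_lt_top {R : Subring ℍ[ℝ]} {κ : Pt → ℝ} {C a : ℝ} (hK : Kap R κ C a) :
    ∫⁻ p, ENNReal.ofReal (κ p) ∂hyp < ⊤ := by
  have hmeas := measurableSet_siegel C a
  refine lt_of_le_of_lt ?_ (hyp_siegel C a hK.pos)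
  rw [← lintegral_indicator_one hmeas]
  apply lintegral_mono_ae
  filter_upwards [ae_hyp_mem] with p hp
  by_cases h : p ∈ {p : Pt | ‖p.1‖ ≤ C ∧ a ≤ p.2}
  · rw [Set.indicator_of_mem h]
    simpa using hK.le_one hp
  · have : κ p = 0 := by
      by_contra h0
      exact h (hK.supp p h0)
    simp [this]

/-- abstract weight functions `ψ` (energy) and `Q` (mass) for the main argument -/
structure AWeights (R : Subring ℍ[ℝ]) (ψ Q : ℝ → ℝ) (μ nuM : ℝ) : Prop where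
  hψ : Measurable ψ
  hQ : Measurable Q
  hnuM : 0 < nuM
  up : ∀ p ∈ UH, ∑' v : Prim R, ENNReal.ofReal (ψ (1 / uval v p)) ≤ ENNReal.ofReal nuM
  low : ∀ p ∈ UH, ENNReal.ofReal (4 * nuM) ≤
    ∑' v : Prim R, ENNReal.ofReal (Q (1 / uval v p))
  strip : ∀ (ν : ℍ[ℝ]) (u : Pt → ℂ) (B : ℝ), ContDiffOn ℝ 1 u UH → (∀ p ∈ UH, ‖u p‖ ≤ B) →
    (∀ r : ℝ, 0 < r →
      ENNReal.ofReal μ * cellInt ν (fun p => ENNReal.ofReal (‖u p‖ ^ 2)) r
        ≤ cellInt ν (fun p => ENNReal.ofReal (∑ k : Fin 4, ‖pd (dir k.castSucc) u p‖ ^ 2)) r) →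
    ∫⁻ r in Set.Ioi (0 : ℝ), ENNReal.ofReal (Q r) *
        cellInt ν (fun p => ENNReal.ofReal (‖u p‖ ^ 2)) r * ENNReal.ofReal ((r ^ 5)⁻¹)
      ≤ ∫⁻ r in Set.Ioi (0 : ℝ), ENNReal.ofReal (ψ r) *
        cellInt ν (fun p => ENNReal.ofReal (gsq u p)) r * ENNReal.ofReal ((r ^ 5)⁻¹)

theorem measurable_pd (e : Pt) (f : Pt → ℂ) : Measurable (pd e f) :=
  measurable_fderiv_apply_const ℝ f e

theorem measurable_gsq (f : Pt → ℂ) : Measurable (gsq f) := by
  unfold gsq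
  exact (measurable_snd.pow_const 2).mul
    (Finset.measurable_sum _ fun k _ => (measurable_pd (dir k) f).norm.pow_const 2)

theorem gsq_nonneg (f : Pt → ℂ) (p : Pt) : 0 ≤ gsq f p := by
  unfold gsq; positivity

theorem continuous_par : Continuous par := by
  have h : ∀ (q : ℍ[ℝ]) (g : (Fin 4 → ℝ) → ℝ), Continuous g → Continuous fun x => g x • q :=
    fun q g hg => hg.smul continuous_const
  have e : par = fun x : Fin 4 → ℝ => (x 0 + x 3 / 2) • (⟨1, 0, 0, 0⟩ : ℍ[ℝ]) +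
      (x 1 + x 3 / 2) • (⟨0, 1, 0, 0⟩ : ℍ[ℝ]) + (x 2 + x 3 / 2) • (⟨0, 0, 1, 0⟩ : ℍ[ℝ]) +
      (x 3 / 2) • (⟨0, 0, 0, 1⟩ : ℍ[ℝ]) := by
    funext x
    ext <;> simp [par]
  rw [e]
  exact (((h _ _ (by fun_prop)).add (h _ _ (by fun_prop))).add (h _ _ (by fun_prop))).add
    (h _ _ (by fun_prop))

theorem measurable_cell (ν : ℍ[ℝ]) (r : ℝ) :
    Measurable fun x : Fin 4 → ℝ => ((ν * par x, r) : Pt) :=
  ((continuous_const.mul continuous_par).prodMk continuous_const).measurable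

theorem cellInt_finset_sum (ν : ℍ[ℝ]) {ι : Type} (S : Finset ι) (F : ι → Pt → ℝ≥0∞)
    (hF : ∀ i, Measurable (F i)) (r : ℝ) :
    cellInt ν (fun p => ∑ i ∈ S, F i p) r = ∑ i ∈ S, cellInt ν (F i) r := by
  unfold cellInt
  rw [lintegral_finsetSum]
  intro i _
  exact (hF i).comp (measurable_cell ν r)

theorem measurable_cellInt (ν : ℍ[ℝ]) (F : Pt → ℝ≥0∞) (hF : Measurable F) :
    Measurable (cellInt ν F) := by
  unfold cellInt
  have h1 : Measurable (fun q : ℝ × (Fin 4 → ℝ) => F (ν * par q.2, q.1)) :=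
    hF.comp ((continuous_const.mul (continuous_par.comp continuous_snd)).prodMk
      continuous_fst).measurable
  exact h1.lintegral_prod_right'

theorem trans_mem_Gam {R : Subring ℍ[ℝ]} {x : ℍ[ℝ]} (hx : x ∈ R) : trans x ∈ Gam R := by
  refine ⟨⟨!![1, ⟨x, hx⟩; 0, 1], !![1, -⟨x, hx⟩; 0, 1], ?_, ?_⟩, ?_⟩
  · refine Matrix.ext fun i j => ?_
    fin_cases i <;> fin_cases j <;> simp [Matrix.mul_apply, Fin.sum_univ_two]
  · refine Matrix.ext fun i j => ?_
    fin_cases i <;> fin_cases j <;> simp [Matrix.mul_apply, Fin.sum_univ_two]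
  · apply Units.ext
    refine Matrix.ext fun i j => ?_
    fin_cases i <;> fin_cases j <;> simp [trans]

/-- averages over the cells of a right ideal and of a smaller right ideal agree -/
theorem cellInt_sub {R : Subring ℍ[ℝ]} (hτ : IsLat R) {ν k : ℍ[ℝ]} (hk : k ∈ R) (hk0 : k ≠ 0)
    (F : Pt → ENNReal) (hF : Measurable F)
    (hper : ∀ x ∈ R, ∀ z : ℍ[ℝ], ∀ r : ℝ, 0 < r → F (z + ν * x, r) = F (z, r)) {r : ℝ}
    (hr : 0 < r) : cellInt (ν * k) F r = cellInt ν F r := by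
  set F' : Pt → ENNReal := fun p => F (ν * p.1, p.2) with hF'
  have hF'm : Measurable F' :=
    hF.comp ((continuous_const.mul continuous_fst).prodMk continuous_snd).measurable
  have h := cellInt_mul hτ hk hk0 F' hF'm (by
    intro x hx z r hr
    simp only [hF', mul_add]
    exact hper x hx _ r hr) hr
  have e1 : cellInt (ν * k) F r = cellInt k F' r := by
    unfold cellInt
    simp only [hF', mul_assoc]
  have e2 : cellInt ν F r = cellInt 1 F' r := by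
    unfold cellInt
    simp only [hF', one_mul]
  rw [e1, e2, h]

theorem main_sys {R : Subring ℍ[ℝ]} (hR : NiceRing R) (hτ : IsLat R) {C0 a0 : ℝ}
    (ha0 : 0 < a0) (hcov : Covers R C0 a0)
    {ψ Q : ℝ → ℝ} {μ nuM : ℝ} (hw : AWeights R ψ Q μ nuM)
    {ι : Type} [Fintype ι] {u : ι → Pt → ℂ} (hS : Sys R ι u) (hum : ∀ i, Measurable (u i))
    {ν : ι → ℍ[ℝ]} {m : ℍ[ℝ]} (hm : m ∈ R) (hm0 : m ≠ 0) (hνm : ∀ i, ∃ k ∈ R, m = ν i * k)
    (huper : ∀ i, ∀ x ∈ R, ∀ p ∈ UH, u i (p.1 + ν i * x, p.2) = u i p)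
    {B : ℝ} (hB : ∀ i, ∀ p ∈ UH, ‖u i p‖ ≤ B) (lam : ℂ) (heig : ∀ i, WeakEig lam (u i))
    (hW : ∀ i, ∀ r : ℝ, 0 < r →
      ENNReal.ofReal μ * cellInt (ν i) (fun p => ENNReal.ofReal (‖u i p‖ ^ 2)) r
        ≤ cellInt (ν i)
          (fun p => ENNReal.ofReal (∑ k : Fin 4, ‖pd (dir k.castSucc) (u i) p‖ ^ 2)) r)
    (hne : ∃ i, ∃ p ∈ UH, u i p ≠ 0) : lam.im = 0 ∧ 4 ≤ lam.re := by
  obtain ⟨κ, C, a', hK⟩ := exists_kap hR ha0 hcov
  set FA : Pt → ℝ≥0∞ := fun p => ENNReal.ofReal (∑ i, ‖u i p‖ ^ 2) with hFA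
  set FB : Pt → ℝ≥0∞ := fun p => ENNReal.ofReal (∑ i, gsq (u i) p) with hFB
  have hFAm : Measurable FA := by
    apply Measurable.ennreal_ofReal
    exact Finset.measurable_sum _ (fun i _ => ((hum i).norm.pow_const 2))
  have hFBm : Measurable FB := by
    apply Measurable.ennreal_ofReal
    exact Finset.measurable_sum _ (fun i _ => measurable_gsq (u i))
  have hκm : Measurable (fun p => ENNReal.ofReal (κ p)) :=
    hK.smooth.continuous.measurable.ennreal_ofReal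
  have hSAm : Measurable (fun p => ENNReal.ofReal (κ p) * FA p) := hκm.mul hFAm
  have hSBm : Measurable (fun p => ENNReal.ofReal (κ p) * FB p) := hκm.mul hFBm
  -- invariance
  have hFAi : ∀ γ ∈ Gam R, ∀ p ∈ UH, FA (act γ p) = FA p := by
    intro γ hγ p hp
    obtain ⟨σ, hσ⟩ := hS.perm γ hγ
    simp only [hFA]
    congr 1
    rw [← Equiv.sum_comp σ (fun i => ‖u i p‖ ^ 2)]
    exact Finset.sum_congr rfl (fun i _ => by rw [hσ i p hp])
  have hdiff : ∀ i, ∀ p ∈ UH, DifferentiableAt ℝ (u i) p := by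
    intro i p hp
    exact ((hS.smooth i).contDiffAt (isOpen_UH.mem_nhds hp)).differentiableAt (by norm_num)
  have hFBi : ∀ γ ∈ Gam R, ∀ p ∈ UH, FB (act γ p) = FB p := by
    intro γ hγ p hp
    obtain ⟨σ, hσ⟩ := hS.perm γ hγ
    simp only [hFB]
    congr 1
    rw [← Equiv.sum_comp σ (fun i => gsq (u i) p)]
    refine Finset.sum_congr rfl (fun i _ => ?_)
    rw [← gsq_comp_act γ (hR.nrd_one γ hγ) hp (hdiff i _ (act_mem γ hp))]
    have he : (fun q => u i (act γ q)) =ᶠ[𝓝 p] u (σ i) := by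
      filter_upwards [isOpen_UH.mem_nhds hp] with q hq using hσ i q hq
    unfold gsq pd
    rw [he.fderiv_eq]
  set SA := ∫⁻ p, ENNReal.ofReal (κ p) * FA p ∂hyp with hSA
  set SB := ∫⁻ p, ENNReal.ofReal (κ p) * FB p ∂hyp with hSB
  -- SA is finite
  have hSAtop : SA ≠ ⊤ := by
    have hle : SA ≤ ∫⁻ p, ENNReal.ofReal (κ p) * ENNReal.ofReal (∑ _i : ι, B ^ 2) ∂hyp := by
      apply lintegral_mono_ae
      filter_upwards [ae_hyp_mem] with p hp
      gcongr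
      apply ENNReal.ofReal_le_ofReal
      exact Finset.sum_le_sum (fun i _ => pow_le_pow_left₀ (norm_nonneg _) (hB i p hp) 2)
    refine ne_top_of_le_ne_top ?_ hle
    rw [lintegral_mul_const _ hκm]
    exact ENNReal.mul_ne_top hK.lintegral_lt_top.ne ENNReal.ofReal_ne_top
  obtain ⟨hE1, hE2⟩ := energy hR hK hS lam heig hSAtop
  change SB ≤ ENNReal.ofReal lam.re * SA at hE1
  change lam.im = 0 ∨ SA = 0 at hE2
  -- SA is positive
  have hSA0 : SA ≠ 0 := by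
    intro h0
    have h1 : ∫⁻ p, (1 : ℝ≥0∞) * FA p ∂hyp = 0 := by
      have := unfold hR hK (fun _ => (1 : ℝ≥0∞)) FA measurable_const hFAm hFAi
      rw [this]
      rw [hSA, lintegral_eq_zero_iff hSAm] at h0
      apply (lintegral_eq_zero_iff' ?_).2
      · filter_upwards [h0] with p hp
        simp only [Pi.zero_apply] at hp ⊢
        rcases mul_eq_zero.1 hp with h | h
        · rw [h]; simp
        · rw [h]; simp
      · exact (hκm.aemeasurable.mul aemeasurable_const).mul hFAm.aemeasurable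
    simp only [one_mul] at h1
    rw [lintegral_eq_zero_iff hFAm] at h1
    obtain ⟨i, p, hp, hup⟩ := hne
    -- on a neighbourhood FA is positive
    have hcont : ContinuousOn (u i) UH := (hS.smooth i).continuousOn
    have hopen : IsOpen (UH ∩ u i ⁻¹' {0}ᶜ) :=
      hcont.isOpen_inter_preimage isOpen_UH isOpen_compl_singleton
    have hnull : hyp (UH ∩ u i ⁻¹' {0}ᶜ) = 0 := by
      have : ∀ᵐ q ∂hyp, q ∉ UH ∩ u i ⁻¹' {0}ᶜ := by
        filter_upwards [h1] with q hq hq2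
        simp only [hFA, Pi.zero_apply, ENNReal.ofReal_eq_zero] at hq
        have h3 : ‖u i q‖ ^ 2 ≤ ∑ j, ‖u j q‖ ^ 2 :=
          Finset.single_le_sum (f := fun j => ‖u j q‖ ^ 2) (fun j _ => by positivity)
            (Finset.mem_univ i)
        have h4 : 0 < ‖u i q‖ ^ 2 := by
          have : u i q ≠ 0 := hq2.2
          positivity
        linarith
      exact measure_eq_zero_iff_ae_notMem.2 this
    have hpos : 0 < volume (UH ∩ u i ⁻¹' {0}ᶜ) := hopen.measure_pos volume ⟨p, hp, hup⟩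
    rw [hyp, withDensity_apply_eq_zero' (by fun_prop)] at hnull
    have hsub : {p : Pt | ENNReal.ofReal ((p.2 ^ 5)⁻¹) ≠ 0} ∩ (UH ∩ u i ⁻¹' {0}ᶜ)
        = UH ∩ u i ⁻¹' {0}ᶜ := by
      apply Set.inter_eq_right.2
      rintro q ⟨hq, -⟩
      have : (0 : ℝ) < q.2 := hq
      simp only [Set.mem_ofPred_eq, ne_eq, ENNReal.ofReal_eq_zero, not_le]
      positivity
    rw [hsub, Measure.restrict_apply hopen.measurableSet, Set.inter_assoc] at hnull
    have hsub2 : UH ∩ (u i ⁻¹' {0}ᶜ ∩ UH) = UH ∩ u i ⁻¹' {0}ᶜ := by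
      ext q; simp only [Set.mem_inter_iff]; tauto
    rw [hsub2] at hnull
    exact hpos.ne' hnull
  have him : lam.im = 0 := hE2.resolve_right hSA0
  refine ⟨him, ?_⟩
  -- the chain
  obtain ⟨KK, hK0, hKtop, hKK⟩ := strip_unfold hR hτ hK
  have hper : ∀ F : Pt → ℝ≥0∞, (∀ γ ∈ Gam R, ∀ p ∈ UH, F (act γ p) = F p) →
      ∀ x ∈ R, ∀ z : ℍ[ℝ], ∀ r : ℝ, 0 < r → F (z + x, r) = F (z, r) := by
    intro F hF x hx z r hr
    have hmem : trans x ∈ Gam R := trans_mem_Gam hx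
    have := hF _ hmem (z, r) hr
    rwa [act_trans] at this
  have hup : ∫⁻ r in Set.Ioi (0 : ℝ), ENNReal.ofReal (ψ r) * cellInt 1 FB r
        * ENNReal.ofReal ((r ^ 5)⁻¹) ≤ KK * (ENNReal.ofReal nuM * SB) := by
    rw [hKK _ FB hw.hψ.ennreal_ofReal hFBm hFBi]
    gcongr
    rw [hSB, ← lintegral_const_mul _ hSBm]
    apply lintegral_mono_ae
    filter_upwards [ae_hyp_mem] with p hp
    calc _ ≤ ENNReal.ofReal (κ p) * ENNReal.ofReal nuM * FB p := by
            gcongr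
            exact hw.up p hp
      _ = _ := by ring
  have hlow : KK * (ENNReal.ofReal (4 * nuM) * SA) ≤
      ∫⁻ r in Set.Ioi (0 : ℝ), ENNReal.ofReal (Q r) * cellInt 1 FA r
        * ENNReal.ofReal ((r ^ 5)⁻¹) := by
    rw [hKK _ FA hw.hQ.ennreal_ofReal hFAm hFAi]
    gcongr
    rw [hSA, ← lintegral_const_mul _ hSAm]
    apply lintegral_mono_ae
    filter_upwards [ae_hyp_mem] with p hp
    calc _ = ENNReal.ofReal (κ p) * ENNReal.ofReal (4 * nuM) * FA p := by ring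
      _ ≤ _ := by
            gcongr
            exact hw.low p hp
  have hcA : ∀ r : ℝ, 0 < r → cellInt 1 FA r
      = ∑ i, cellInt (ν i) (fun p => ENNReal.ofReal (‖u i p‖ ^ 2)) r := by
    intro r hr
    rw [← cellInt_mul hτ hm hm0 FA hFAm (hper FA hFAi) hr]
    have e : ∀ i, cellInt (ν i) (fun p => ENNReal.ofReal (‖u i p‖ ^ 2)) r
        = cellInt m (fun p => ENNReal.ofReal (‖u i p‖ ^ 2)) r := by
      intro i
      obtain ⟨k, hk, hmk⟩ := hνm i
      rw [hmk]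
      refine (cellInt_sub hτ hk (by rintro rfl; exact hm0 (by rw [hmk, mul_zero])) _
        ((hum i).norm.pow_const 2).ennreal_ofReal ?_ hr).symm
      intro x hx z r hr
      rw [huper i x hx (z, r) hr]
    rw [Finset.sum_congr rfl fun i _ => e i]
    rw [← cellInt_finset_sum m Finset.univ (fun i p => ENNReal.ofReal (‖u i p‖ ^ 2))
      (fun i => ((hum i).norm.pow_const 2).ennreal_ofReal)]
    congr 1
    funext p
    simp only [hFA]
    rw [ENNReal.ofReal_sum_of_nonneg (fun i _ => by positivity)]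
  have hcB : ∀ r : ℝ, 0 < r → cellInt 1 FB r
      = ∑ i, cellInt (ν i) (fun p => ENNReal.ofReal (gsq (u i) p)) r := by
    intro r hr
    rw [← cellInt_mul hτ hm hm0 FB hFBm (hper FB hFBi) hr]
    have e : ∀ i, cellInt (ν i) (fun p => ENNReal.ofReal (gsq (u i) p)) r
        = cellInt m (fun p => ENNReal.ofReal (gsq (u i) p)) r := by
      intro i
      obtain ⟨k, hk, hmk⟩ := hνm i
      rw [hmk]
      refine (cellInt_sub hτ hk (by rintro rfl; exact hm0 (by rw [hmk, mul_zero])) _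
        (measurable_gsq (u i)).ennreal_ofReal ?_ hr).symm
      intro x hx z r hr
      have hz : ((z, r) : Pt) ∈ UH := hr
      have e1 : ((z + ν i * x, r) : Pt) = act (trans (ν i * x)) (z, r) := by
        rw [act_trans]
      rw [e1, ← gsq_comp_act _ (nrd_trans _) hz (hdiff i _ (act_mem _ hz))]
      have he : (fun q => u i (act (trans (ν i * x)) q)) =ᶠ[𝓝 (z, r)] u i := by
        filter_upwards [isOpen_UH.mem_nhds hz] with q hq
        rw [act_trans]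
        exact huper i x hx q hq
      unfold gsq pd
      rw [he.fderiv_eq]
    rw [Finset.sum_congr rfl fun i _ => e i]
    rw [← cellInt_finset_sum m Finset.univ (fun i p => ENNReal.ofReal (gsq (u i) p))
      (fun i => (measurable_gsq (u i)).ennreal_ofReal)]
    congr 1
    funext p
    simp only [hFB]
    rw [ENNReal.ofReal_sum_of_nonneg (fun i _ => gsq_nonneg _ _)]
  have hmid : ∫⁻ r in Set.Ioi (0 : ℝ), ENNReal.ofReal (Q r) * cellInt 1 FA r
        * ENNReal.ofReal ((r ^ 5)⁻¹) ≤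
      ∫⁻ r in Set.Ioi (0 : ℝ), ENNReal.ofReal (ψ r) * cellInt 1 FB r
        * ENNReal.ofReal ((r ^ 5)⁻¹) := by
    have hiA : ∀ i, Measurable (fun r : ℝ => ENNReal.ofReal (Q r) *
        cellInt (ν i) (fun p => ENNReal.ofReal (‖u i p‖ ^ 2)) r * ENNReal.ofReal ((r ^ 5)⁻¹)) := by
      intro i
      exact (hw.hQ.ennreal_ofReal.mul
        (measurable_cellInt (ν i) _ ((hum i).norm.pow_const 2).ennreal_ofReal)).mul (by fun_prop)
    have hiB : ∀ i, Measurable (fun r : ℝ => ENNReal.ofReal (ψ r) *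
        cellInt (ν i) (fun p => ENNReal.ofReal (gsq (u i) p)) r * ENNReal.ofReal ((r ^ 5)⁻¹)) := by
      intro i
      exact (hw.hψ.ennreal_ofReal.mul
        (measurable_cellInt (ν i) _ (measurable_gsq (u i)).ennreal_ofReal)).mul (by fun_prop)
    calc _ = ∫⁻ r in Set.Ioi (0 : ℝ), ∑ i, ENNReal.ofReal (Q r) *
          cellInt (ν i) (fun p => ENNReal.ofReal (‖u i p‖ ^ 2)) r * ENNReal.ofReal ((r ^ 5)⁻¹) := by
            apply setLIntegral_congr_fun measurableSet_Ioi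
            intro r hr
            simp only
            rw [hcA r hr, Finset.mul_sum, Finset.sum_mul]
      _ = ∑ i, ∫⁻ r in Set.Ioi (0 : ℝ), ENNReal.ofReal (Q r) *
          cellInt (ν i) (fun p => ENNReal.ofReal (‖u i p‖ ^ 2)) r * ENNReal.ofReal ((r ^ 5)⁻¹) :=
            lintegral_finsetSum _ (fun i _ => hiA i)
      _ ≤ ∑ i, ∫⁻ r in Set.Ioi (0 : ℝ), ENNReal.ofReal (ψ r) *
          cellInt (ν i) (fun p => ENNReal.ofReal (gsq (u i) p)) r * ENNReal.ofReal ((r ^ 5)⁻¹) := by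
            refine Finset.sum_le_sum (fun i _ => ?_)
            exact hw.strip (ν i) (u i) B ((hS.smooth i).of_le (by norm_num)) (hB i) (hW i)
      _ = ∫⁻ r in Set.Ioi (0 : ℝ), ∑ i, ENNReal.ofReal (ψ r) *
          cellInt (ν i) (fun p => ENNReal.ofReal (gsq (u i) p)) r * ENNReal.ofReal ((r ^ 5)⁻¹) :=
            (lintegral_finsetSum _ (fun i _ => hiB i)).symm
      _ = _ := by
            apply setLIntegral_congr_fun measurableSet_Ioi
            intro r hr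
            simp only
            rw [hcB r hr, Finset.mul_sum, Finset.sum_mul]
  have h1 := hlow.trans (hmid.trans hup)
  have hn0 : ENNReal.ofReal nuM ≠ 0 := by
    simpa using hw.hnuM
  have h2 : ENNReal.ofReal 4 * SA ≤ SB := by
    rw [ENNReal.mul_le_mul_iff_right hK0 hKtop, ENNReal.ofReal_mul (by norm_num)] at h1
    have e : ENNReal.ofReal 4 * ENNReal.ofReal nuM * SA
        = ENNReal.ofReal nuM * (ENNReal.ofReal 4 * SA) := by ring
    rwa [e, ENNReal.mul_le_mul_iff_right hn0 ENNReal.ofReal_ne_top] at h1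
  have h3 : ENNReal.ofReal 4 * SA ≤ ENNReal.ofReal lam.re * SA := h2.trans hE1
  rw [ENNReal.mul_le_mul_iff_left hSA0 hSAtop] at h3
  by_contra hlt
  push Not at hlt
  exact absurd h3 (not_le.2 ((ENNReal.ofReal_lt_ofReal_iff (by norm_num)).2 hlt))

theorem pd_congr {f g : Pt → ℂ} (h : ∀ p ∈ UH, f p = g p) (e : Pt) :
    ∀ p ∈ UH, pd e f p = pd e g p := by
  intro p hp
  have he : f =ᶠ[𝓝 p] g := by
    filter_upwards [isOpen_UH.mem_nhds hp] with q hq using h q hq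
  unfold pd
  rw [he.fderiv_eq]

theorem lap_congr {f g : Pt → ℂ} (h : ∀ p ∈ UH, f p = g p) :
    ∀ p ∈ UH, lap f p = lap g p := by
  intro p hp
  unfold lap
  rw [pd_congr h (dir 4) p hp]
  congr 2
  exact Finset.sum_congr rfl fun k _ => pd_congr (pd_congr h (dir k)) (dir k) p hp

theorem main {R : Subring ℍ[ℝ]} (hR : NiceRing R) (hτ : IsLat R) {C0 a0 : ℝ}
    (ha0 : 0 < a0) (hcov : Covers R C0 a0)
    (hcm : ∀ (ι : Type) [Fintype ι] (ν : ι → ℍ[ℝ]), (∀ i, ν i ∈ R ∧ ν i ≠ 0) →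
      ∃ m ∈ R, m ≠ 0 ∧ ∀ i, ∃ k ∈ R, m = ν i * k)
    {ψ Q : ℝ → ℝ} {μ nuM : ℝ} (hw : AWeights R ψ Q μ nuM) {P : ℍ[ℝ] → Prop}
    (hW : ∀ ν : ℍ[ℝ], ν ∈ R → ν ≠ 0 → P ν → ∀ u : Pt → ℂ, ContDiffOn ℝ 1 u UH →
      (∀ x ∈ R, ∀ p ∈ UH, u (p.1 + ν * x, p.2) = u p) → ∀ r : ℝ, 0 < r →
      (∫ x in Set.Icc (0 : Fin 4 → ℝ) 1, u (ν * par x, r) = 0) →
      ENNReal.ofReal μ * cellInt ν (fun p => ENNReal.ofReal (‖u p‖ ^ 2)) r
        ≤ cellInt ν (fun p => ENNReal.ofReal (∑ k : Fin 4, ‖pd (dir k.castSucc) u p‖ ^ 2)) r)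
    (Δ : Subgroup GL2H) (hfi : Δ.relIndex (Gam R) ≠ 0)
    (f : Pt → ℂ) (hf : ContDiffOn ℝ 2 f UH) (hinv : ∀ γ ∈ Δ, ∀ p ∈ UH, f (act γ p) = f p)
    (hbdd : ∃ B : ℝ, ∀ p ∈ UH, ‖f p‖ ≤ B)
    (lam : ℂ) (heig : ∀ p ∈ UH, lap f p = -lam * f p)
    (hcusp : ∀ γ ∈ Gam R, ∃ ν ∈ R, ν ≠ 0 ∧ P ν ∧ (∀ x ∈ R, γ * trans (ν * x) * γ⁻¹ ∈ Δ) ∧
      ∀ r : ℝ, 0 < r → ∫ x in Set.Icc (0 : Fin 4 → ℝ) 1, f (act γ (ν * par x, r)) = 0)
    (hne : ∃ p ∈ UH, f p ≠ 0) : ∃ l : ℝ, 4 ≤ l ∧ lam = l := by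
  classical
  obtain ⟨B, hB⟩ := hbdd
  set f₀ : Pt → ℂ := UH.indicator f with hf₀
  have hff : ∀ p ∈ UH, f₀ p = f p := fun p hp => Set.indicator_of_mem hp f
  have hf₀c : ContDiffOn ℝ 2 f₀ UH := hf.congr hff
  have hf₀m : Measurable f₀ := by
    have := (hf.continuousOn.measurable_piecewise (g := (0 : Pt → ℂ)) continuous_zero.continuousOn
      measurableSet_UH)
    rwa [Set.piecewise_eq_indicator] at this
  have hf₀i : ∀ γ ∈ Δ, ∀ p ∈ UH, f₀ (act γ p) = f₀ p := by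
    intro γ hγ p hp
    rw [hff _ (act_mem γ hp), hff p hp, hinv γ hγ p hp]
  have hf₀e : WeakEig lam f₀ := by
    apply green hf₀c
    intro p hp
    rw [lap_congr hff p hp, heig p hp, hff p hp]
  let H : Subgroup (Gam R) := Δ.subgroupOf (Gam R)
  have hHi : H.index ≠ 0 := hfi
  have : H.FiniteIndex := ⟨hHi⟩
  have : Finite (Gam R ⧸ H) := Subgroup.finite_quotient_of_finiteIndex
  have : Fintype (Gam R ⧸ H) := Fintype.ofFinite _
  let u : (Gam R ⧸ H) → Pt → ℂ := fun q p => f₀ (act ((q.out : Gam R) : GL2H)⁻¹ p)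
  -- independence of the representative
  have hrep : ∀ (g : Gam R), ∀ p ∈ UH, u (g : Gam R ⧸ H) p = f₀ (act (g : GL2H)⁻¹ p) := by
    intro g p hp
    obtain ⟨h, hh⟩ := QuotientGroup.mk_out_eq_mul H g
    simp only [u]
    rw [hh]
    have e : (((g * (h : Gam R) : Gam R) : GL2H))⁻¹ = ((h : Gam R) : GL2H)⁻¹ * (g : GL2H)⁻¹ := by
      push_cast
      rw [mul_inv_rev]
    rw [e, act_mul _ _ (hR.nrd_one _ ((Gam R).inv_mem g.2)) hp]
    apply hf₀i _ _ _ (act_mem _ hp)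
    exact Δ.inv_mem h.2
  have hum : ∀ q, Measurable (u q) := fun q => hf₀m.comp (measurable_act _)
  have huc : ∀ q, ContDiffOn ℝ 2 (u q) UH := fun q =>
    hf₀c.comp (contDiffOn_act _) (fun p hp => act_mem _ hp)
  have hS : Sys R (Gam R ⧸ H) u := by
    refine ⟨huc, ?_⟩
    intro γ hγ
    refine ⟨MulAction.toPerm (⟨γ, hγ⟩⁻¹ : Gam R), ?_⟩
    intro q p hp
    obtain ⟨g, rfl⟩ := QuotientGroup.mk_surjective q
    rw [hrep g _ (act_mem γ hp)]
    have e1' : (MulAction.toPerm (⟨γ, hγ⟩⁻¹ : Gam R)) ((g : Gam R) : Gam R ⧸ H)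
        = (((⟨γ, hγ⟩⁻¹ : Gam R) * g : Gam R) : Gam R ⧸ H) := rfl
    rw [e1', hrep _ p hp, ← act_mul _ _ (hR.nrd_one γ hγ) hp]
    congr 2
  choose ν hνR hν0 hνP hlev hcus using fun q : Gam R ⧸ H =>
    hcusp ((q.out : Gam R) : GL2H)⁻¹ ((Gam R).inv_mem (q.out : Gam R).2)
  have hper : ∀ q, ∀ x ∈ R, ∀ p ∈ UH, u q (p.1 + ν q * x, p.2) = u q p := by
    intro q x hx p hp
    simp only [u]
    have hl := hlev q x hx
    rw [inv_inv] at hl
    have hgG : ((q.out : Gam R) : GL2H)⁻¹ ∈ Gam R := (Gam R).inv_mem (q.out : Gam R).2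
    have e : ((q.out : Gam R) : GL2H)⁻¹ * trans (ν q * x)
        = (((q.out : Gam R) : GL2H)⁻¹ * trans (ν q * x) * ((q.out : Gam R) : GL2H))
          * ((q.out : Gam R) : GL2H)⁻¹ := by group
    rw [← act_trans, ← act_mul _ _ (nrd_trans _) hp, e, act_mul _ _ (hR.nrd_one _ hgG) hp]
    exact hf₀i _ hl _ (act_mem _ hp)
  have hmean : ∀ q, ∀ r : ℝ, 0 < r →
      ∫ x in Set.Icc (0 : Fin 4 → ℝ) 1, u q (ν q * par x, r) = 0 := by
    intro q r hr
    rw [← hcus q r hr]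
    congr 1
    funext x
    exact hff _ (act_mem _ hr)
  obtain ⟨m, hm, hm0, hνm⟩ := hcm _ ν fun q => ⟨hνR q, hν0 q⟩
  have huB : ∀ q, ∀ p ∈ UH, ‖u q p‖ ≤ B := by
    intro q p hp
    simp only [u]
    rw [hff _ (act_mem _ hp)]
    exact hB _ (act_mem _ hp)
  have hne' : ∃ q, ∃ p ∈ UH, u q p ≠ 0 := by
    obtain ⟨p, hp, hfp⟩ := hne
    refine ⟨((1 : Gam R) : Gam R ⧸ H), p, hp, ?_⟩
    rw [hrep 1 p hp]
    simpa [act_one, hff p hp] using hfp
  obtain ⟨h1, h2⟩ := main_sys hR hτ ha0 hcov hw hS hum hm hm0 hνm hper huB lam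
    (fun q => weakEig_comp _ (hR.nrd_one _ ((Gam R).inv_mem (q.out : Gam R).2))
      (hf₀c.of_le (by norm_num)) hf₀e)
    (fun q r hr => hW (ν q) (hνR q) (hν0 q) (hνP q) (u q) ((huc q).of_le (by norm_num))
      (hper q) r hr (hmean q r hr)) hne'
  refine ⟨lam.re, h2, ?_⟩
  apply Complex.ext <;> simp [h1]

/-- the weights used for the Hurwitz order -/
theorem weights_Hur :
    AWeights Hur (psi (153 / 100) (103 / 100)) (Qf (153 / 100) (79 / 10) (98 / 100) (532 / 100))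
      (877 / 100) (24 * (133 / 100)) where
  hψ := measurable_psi _ _
  hQ := measurable_Qf _ _ _ _
  hnuM := by norm_num
  up := fun p hp => upper_Hur hp
  low := fun p hp => lower_Hur hp
  strip := fun ν u B hu hB hW => by
    refine strip_of_tail (x := 100 / 153) (by norm_num) (measurable_psi _ _)
      (fun r _ => psi_nonneg _ _ r) (measurable_Qf _ _ _ _)
      (fun r _ => Qf_nonneg (by norm_num) r) (by norm_num) ?_ ?_ h5_tail hu hB hW
    · rw [psi_line (by norm_num) (by norm_num) (by norm_num)]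
      norm_num
    · intro r hr hr2
      unfold Qf
      rw [if_pos (by linarith)]
      apply max_eq_left
      have : (153 / 100 : ℝ) ≤ 1 / r := by
        rw [le_div_iff₀ hr]; linarith
      nlinarith

theorem star_mem_Hur {x : ℍ[ℝ]} (hx : x ∈ Hur) : star x ∈ Hur := by
  obtain ⟨n, rfl⟩ := (isLat_Hur x).1 hx
  refine (isLat_Hur _).2 ⟨![n 0 + n 3, -n 1, -n 2, -n 3], ?_⟩
  ext
  · rw [Quaternion.re_star]; simp [par]; ring
  · rw [Quaternion.imI_star]; simp [par]; ring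
  · rw [Quaternion.imJ_star]; simp [par]; ring
  · rw [Quaternion.imK_star]; simp [par]; ring

theorem nat_norm_Hur {x : ℍ[ℝ]} (hx : x ∈ Hur) : ∃ n : ℕ, ‖x‖ ^ 2 = n := by
  obtain ⟨n, hn⟩ := (Pool.Agent.Helper34.Ram5.isH_of_mem hx).nsq_int
  have h0 : 0 ≤ n := by
    have : (0 : ℝ) ≤ n := by rw [← hn]; positivity
    exact_mod_cast this
  obtain ⟨k, rfl⟩ := Int.eq_ofNat_of_zero_le h0
  exact ⟨k, by rw [hn]; simp⟩

theorem common_multiple (ι : Type) [Fintype ι] (ν : ι → ℍ[ℝ])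
    (h : ∀ i, ν i ∈ Hur ∧ ν i ≠ 0) : ∃ m ∈ Hur, m ≠ 0 ∧ ∀ i, ∃ k ∈ Hur, m = ν i * k := by
  classical
  choose n hn using fun i => nat_norm_Hur (h i).1
  have hn0 : ∀ i, n i ≠ 0 := by
    intro i hi
    have h1 := hn i
    rw [hi, Nat.cast_zero] at h1
    exact (h i).2 (norm_eq_zero.1 (by simpa using h1))
  have hν : ∀ i, ν i * star (ν i) = ((n i : ℕ) : ℍ[ℝ]) := by
    intro i
    rw [Pool.Agent.Helper34.Ram5.mul_star_self', hn i]
    exact Quaternion.coe_natCast _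
  refine ⟨((∏ i, n i : ℕ) : ℍ[ℝ]), natCast_mem _ _, ?_, ?_⟩
  · rw [← Quaternion.coe_natCast, Ne, ← Quaternion.coe_zero, Quaternion.coe_inj,
      Nat.cast_eq_zero]
    exact Finset.prod_ne_zero_iff.2 fun i _ => hn0 i
  · intro i
    refine ⟨star (ν i) * ((∏ j ∈ Finset.univ.erase i, n j : ℕ) : ℍ[ℝ]),
      mul_mem (star_mem_Hur (h i).1) (natCast_mem _ _), ?_⟩
    rw [← mul_assoc, hν i, ← Nat.cast_mul, Finset.mul_prod_erase _ _ (Finset.mem_univ i)]

theorem main_Hur (Δ : Subgroup GL2H) (hfi : Δ.relIndex (Gam Hur) ≠ 0)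
    (f : Pt → ℂ) (hf : ContDiffOn ℝ 2 f UH) (hinv : ∀ γ ∈ Δ, ∀ p ∈ UH, f (act γ p) = f p)
    (hbdd : ∃ B : ℝ, ∀ p ∈ UH, ‖f p‖ ≤ B)
    (lam : ℂ) (heig : ∀ p ∈ UH, lap f p = -lam * f p)
    (hcusp : ∀ γ ∈ Gam Hur, ∃ ν ∈ Hur, ν ≠ 0 ∧ ‖ν‖ ^ 2 ≤ 9 ∧
      (∀ x ∈ Hur, γ * trans (ν * x) * γ⁻¹ ∈ Δ) ∧
      ∀ r : ℝ, 0 < r → ∫ x in Set.Icc (0 : Fin 4 → ℝ) 1, f (act γ (ν * par x, r)) = 0)
    (hne : ∃ p ∈ UH, f p ≠ 0) : ∃ l : ℝ, 4 ≤ l ∧ lam = l := by
  refine main niceRing_Hur isLat_Hur (by norm_num) covers_Hur common_multiple weights_Hur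
    (P := fun ν => ‖ν‖ ^ 2 ≤ 9) ?_ Δ hfi f hf hinv hbdd lam heig hcusp hne
  intro ν _ hν0 hνN u hu hp r hr hm
  have hpos : 0 < ‖ν‖ ^ 2 := by positivity
  have hμ : (877 / 100 : ℝ) ≤ 8 * Real.pi ^ 2 / ‖ν‖ ^ 2 := by
    rw [le_div_iff₀ hpos]
    have := Real.pi_gt_d6
    nlinarith
  exact (mul_le_mul_left (ENNReal.ofReal_le_ofReal hμ) _).trans (wirtinger hν0 hu hp hr hm)

end Pool.Agent.Helper10.Ram5
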