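import Pool.Agent.Helper13.Ram5.Alg
import Pool.Agent.Helper34.Ram5.Hurw

set_option autoImplicit false

/-!
# Module A_lat : the Hurwitz order is a lattice, is discrete, and covers
-/

namespace Pool.Agent.Helper10.Ram5L

open Pool.Agent.Helper10.Ram5 Pool.Agent.Helper34.Ram5
open MeasureTheory Topology
open scoped Quaternion

/-- a quaternion from its coordinates -/
def mkq (a b c d : ℝ) : ℍ[ℝ] := ⟨a, b, c, d⟩

theorem mkq_re (a b c d : ℝ) : (mkq a b c d).re = a := rfl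
theorem mkq_imI (a b c d : ℝ) : (mkq a b c d).imI = b := rfl
theorem mkq_imJ (a b c d : ℝ) : (mkq a b c d).imJ = c := rfl
theorem mkq_imK (a b c d : ℝ) : (mkq a b c d).imK = d := rfl

theorem isLat_Hur : IsLat Hur := by
  intro x
  constructor
  · intro hx
    obtain ⟨a, b, c, d, h1, h2, h3, h4⟩ := isH_of_mem hx
    refine ⟨![a, b, c, d], ?_⟩
    ext
    · rw [h1]; simp [par]
    · rw [h2]; simp [par]
    · rw [h3]; simp [par]
    · rw [h4]; simp [par]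
  · rintro ⟨n, rfl⟩
    have e : (par fun i => (n i : ℝ)) = (n 0 : ℍ[ℝ]) + (n 1 : ℍ[ℝ]) * mkq 0 1 0 0
        + (n 2 : ℍ[ℝ]) * mkq 0 0 1 0 + (n 3 : ℍ[ℝ]) * mkq (1 / 2) (1 / 2) (1 / 2) (1 / 2) := by
      ext
      · simp only [Quaternion.re_add, Quaternion.re_mul, Quaternion.re_intCast,
          Quaternion.imI_intCast, Quaternion.imJ_intCast, Quaternion.imK_intCast, mkq_re,
          mkq_imI, mkq_imJ, mkq_imK, par]
        ring
      · simp only [Quaternion.imI_add, Quaternion.imI_mul, Quaternion.re_intCast,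
          Quaternion.imI_intCast, Quaternion.imJ_intCast, Quaternion.imK_intCast, mkq_re,
          mkq_imI, mkq_imJ, mkq_imK, par]
        ring
      · simp only [Quaternion.imJ_add, Quaternion.imJ_mul, Quaternion.re_intCast,
          Quaternion.imI_intCast, Quaternion.imJ_intCast, Quaternion.imK_intCast, mkq_re,
          mkq_imI, mkq_imJ, mkq_imK, par]
        ring
      · simp only [Quaternion.imK_add, Quaternion.imK_mul, Quaternion.re_intCast,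
          Quaternion.imI_intCast, Quaternion.imJ_intCast, Quaternion.imK_intCast, mkq_re,
          mkq_imI, mkq_imJ, mkq_imK, par]
        ring
    rw [e]
    have g1 : mkq 0 1 0 0 ∈ Hur := Subring.subset_closure (Or.inl rfl)
    have g2 : mkq 0 0 1 0 ∈ Hur := Subring.subset_closure (Or.inr (Or.inl rfl))
    have g3 : mkq (1 / 2) (1 / 2) (1 / 2) (1 / 2) ∈ Hur :=
      Subring.subset_closure (Or.inr (Or.inr rfl))
    exact add_mem (add_mem (add_mem (intCast_mem _ _) (mul_mem (intCast_mem _ _) g1))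
      (mul_mem (intCast_mem _ _) g2)) (mul_mem (intCast_mem _ _) g3)

theorem par_isH (n : Fin 4 → ℤ) : IsH (par fun i => (n i : ℝ)) :=
  ⟨n 0, n 1, n 2, n 3, rfl, rfl, rfl, rfl⟩

theorem mem_of_isH {x : ℍ[ℝ]} (hx : IsH x) : x ∈ Hur := by
  obtain ⟨a, b, c, d, h1, h2, h3, h4⟩ := hx
  refine (isLat_Hur x).2 ⟨![a, b, c, d], ?_⟩
  ext
  · rw [h1]; simp [par]
  · rw [h2]; simp [par]
  · rw [h3]; simp [par]
  · rw [h4]; simp [par]

theorem abs_comp_le (x : ℍ[ℝ]) :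
    |x.re| ≤ ‖x‖ ∧ |x.imI| ≤ ‖x‖ ∧ |x.imJ| ≤ ‖x‖ ∧ |x.imK| ≤ ‖x‖ := by
  have h := nsq x
  refine ⟨?_, ?_, ?_, ?_⟩ <;> apply abs_le_of_sq_le_sq _ (norm_nonneg x) <;> rw [h] <;>
    nlinarith [sq_nonneg x.re, sq_nonneg x.imI, sq_nonneg x.imJ, sq_nonneg x.imK]

theorem fin_Hur (C : ℝ) : {x : ℍ[ℝ] | x ∈ Hur ∧ ‖x‖ ≤ C}.Finite := by
  set K : ℤ := ⌈2 * C⌉ with hK
  have hfin : (Set.Icc (fun _ => -K : Fin 4 → ℤ) (fun _ => K)).Finite := Set.finite_Icc _ _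
  refine (hfin.image fun n : Fin 4 → ℤ => par fun i => (n i : ℝ)).subset ?_
  rintro x ⟨hx, hC⟩
  obtain ⟨n, rfl⟩ := (isLat_Hur x).1 hx
  refine ⟨n, ?_, rfl⟩
  obtain ⟨h1, h2, h3, h4⟩ := abs_comp_le (par fun i => (n i : ℝ))
  have hK' : 2 * C ≤ K := Int.le_ceil _
  simp only [par] at h1 h2 h3 h4
  have a1 := abs_le.1 (h1.trans hC)
  have a2 := abs_le.1 (h2.trans hC)
  have a3 := abs_le.1 (h3.trans hC)
  have a4 := abs_le.1 (h4.trans hC)
  have key : ∀ i, -(K : ℝ) ≤ n i ∧ (n i : ℝ) ≤ K := by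
    intro i
    fin_cases i
    · simp only [Fin.zero_eta]; constructor <;> linarith
    · simp only [Fin.mk_one]; constructor <;> linarith
    · simp only [Fin.reduceFinMk]; constructor <;> linarith
    · simp only [Fin.reduceFinMk]; constructor <;> linarith
  constructor
  · intro i
    have := (key i).1
    exact_mod_cast this
  · intro i
    have := (key i).2
    exact_mod_cast this

theorem gam_isH {γ : GL2H} (hγ : γ ∈ Gam Hur) (i j : Fin 2) : IsH (γ.1 i j) := by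
  obtain ⟨g, rfl⟩ := hγ
  exact isH_of_mem (g.1 i j).2

theorem nrd_int {g : Matrix (Fin 2) (Fin 2) ℍ[ℝ]} (h : ∀ i j, IsH (g i j)) :
    ∃ n : ℤ, nrd g = n := by
  obtain ⟨a, ha⟩ := (h 0 0).nsq_int
  obtain ⟨b, hb⟩ := (h 1 1).nsq_int
  obtain ⟨c, hc⟩ := (h 0 1).nsq_int
  obtain ⟨d, hd⟩ := (h 1 0).nsq_int
  obtain ⟨e, he⟩ := ((((h 0 0).mul (h 1 0).star).mul (h 1 1)).mul (h 0 1).star).re_int
  refine ⟨a * b + c * d - e, ?_⟩
  unfold nrd
  rw [ha, hb, hc, hd, he]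
  push_cast
  ring

theorem nrd_one_Hur {γ : GL2H} (hγ : γ ∈ Gam Hur) : nrd γ.1 = 1 := by
  obtain ⟨m, hm⟩ := nrd_int (gam_isH hγ)
  obtain ⟨n, hn⟩ := nrd_int (gam_isH ((Gam Hur).inv_mem hγ))
  have h := Pool.Agent.Helper13.Ram5.nrd_mul γ γ⁻¹
  rw [mul_inv_cancel, Pool.Agent.Helper13.Ram5.nrd_one', hm, hn] at h
  have h2 : m * n = 1 := by exact_mod_cast h.symm
  have h3 : (0 : ℝ) ≤ m := by rw [← hm]; exact Pool.Agent.Helper13.Ram5.nrd_nonneg _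
  have h4 : 0 ≤ m := by exact_mod_cast h3
  rcases Int.eq_one_or_neg_one_of_mul_eq_one h2 with h5 | h5
  · rw [hm, h5]; simp
  · omega

theorem niceRing_Hur : NiceRing Hur where
  disc := fun _ hx h0 => (isH_of_mem hx).disc h0
  fin := fin_Hur
  nrd_one := fun _ hγ => nrd_one_Hur hγ

/-! ### the order is norm Euclidean -/

theorem round_aux (z : ℝ) : ∃ m A : ℤ, |z + m| ≤ 1 / 2 ∧ |z + A - 1 / 2| = 1 / 2 - |z + m| := by
  have h1 := abs_sub_round z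
  rcases le_total 0 (z - round z) with h | h
  · refine ⟨-round z, -round z, ?_, ?_⟩
    · push_cast; rw [← sub_eq_add_neg]; exact h1
    · push_cast
      rw [← sub_eq_add_neg, abs_of_nonneg h] at *
      rw [abs_of_nonpos (by linarith)]
      ring
  · refine ⟨-round z, -round z + 1, ?_, ?_⟩
    · push_cast; rw [← sub_eq_add_neg]; exact h1
    · push_cast
      rw [← sub_eq_add_neg, abs_of_nonpos h] at *
      rw [abs_of_nonneg (by linarith)]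
      ring

theorem sq_sum_le {a b c d : ℝ} (ha : 0 ≤ a) (hb : 0 ≤ b) (hc : 0 ≤ c) (hd : 0 ≤ d)
    (ha' : a ≤ 1 / 2) (hb' : b ≤ 1 / 2) (hc' : c ≤ 1 / 2) (hd' : d ≤ 1 / 2)
    (h : a + b + c + d ≤ 1) : a ^ 2 + b ^ 2 + c ^ 2 + d ^ 2 ≤ 1 / 2 := by
  nlinarith [mul_nonneg ha (sub_nonneg.2 ha'), mul_nonneg hb (sub_nonneg.2 hb'),
    mul_nonneg hc (sub_nonneg.2 hc'), mul_nonneg hd (sub_nonneg.2 hd')]

theorem euclid (z : ℍ[ℝ]) : ∃ x ∈ Hur, ‖z + x‖ ^ 2 ≤ 1 / 2 := by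
  obtain ⟨m0, A0, h0, k0⟩ := round_aux z.re
  obtain ⟨m1, A1, h1, k1⟩ := round_aux z.imI
  obtain ⟨m2, A2, h2, k2⟩ := round_aux z.imJ
  obtain ⟨m3, A3, h3, k3⟩ := round_aux z.imK
  rcases le_total (|z.re + m0| + |z.imI + m1| + |z.imJ + m2| + |z.imK + m3|) 1 with h | h
  · refine ⟨mkq m0 m1 m2 m3, mem_of_isH ?_, ?_⟩
    · refine ⟨m0 - m3, m1 - m3, m2 - m3, 2 * m3, ?_, ?_, ?_, ?_⟩ <;>
        simp only [mkq_re, mkq_imI, mkq_imJ, mkq_imK] <;> push_cast <;> ring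
    · rw [nsq, Quaternion.re_add, Quaternion.imI_add, Quaternion.imJ_add, Quaternion.imK_add,
        mkq_re, mkq_imI, mkq_imJ, mkq_imK]
      rw [← sq_abs (z.re + m0), ← sq_abs (z.imI + m1), ← sq_abs (z.imJ + m2),
        ← sq_abs (z.imK + m3)]
      exact sq_sum_le (abs_nonneg _) (abs_nonneg _) (abs_nonneg _) (abs_nonneg _) h0 h1 h2 h3 h
  · refine ⟨mkq (A0 - 1 / 2) (A1 - 1 / 2) (A2 - 1 / 2) (A3 - 1 / 2), mem_of_isH ?_, ?_⟩
    · refine ⟨A0 - A3, A1 - A3, A2 - A3, 2 * A3 - 1, ?_, ?_, ?_, ?_⟩ <;>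
        simp only [mkq_re, mkq_imI, mkq_imJ, mkq_imK] <;> push_cast <;> ring
    · rw [nsq, Quaternion.re_add, Quaternion.imI_add, Quaternion.imJ_add, Quaternion.imK_add,
        mkq_re, mkq_imI, mkq_imJ, mkq_imK]
      simp only [← add_sub_assoc]
      rw [← sq_abs (z.re + A0 - 1 / 2), ← sq_abs (z.imI + A1 - 1 / 2),
        ← sq_abs (z.imJ + A2 - 1 / 2), ← sq_abs (z.imK + A3 - 1 / 2), k0, k1, k2, k3]
      refine sq_sum_le ?_ ?_ ?_ ?_ ?_ ?_ ?_ ?_ ?_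
      · linarith
      · linarith
      · linarith
      · linarith
      · linarith [abs_nonneg (z.re + m0)]
      · linarith [abs_nonneg (z.imI + m1)]
      · linarith [abs_nonneg (z.imJ + m2)]
      · linarith [abs_nonneg (z.imK + m3)]
      · linarith

/-! ### reduction -/

/-- the matrix `(0 1; -1 0)` -/
noncomputable def wmat : GL2H :=
  ⟨!![0, 1; -1, 0], !![0, -1; 1, 0],
    Matrix.ext fun i j => by
      fin_cases i <;> fin_cases j <;> simp [Matrix.mul_apply, Fin.sum_univ_two],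
    Matrix.ext fun i j => by
      fin_cases i <;> fin_cases j <;> simp [Matrix.mul_apply, Fin.sum_univ_two]⟩

theorem wmat_mem (R : Subring ℍ[ℝ]) : wmat ∈ Gam R := by
  refine ⟨⟨!![0, 1; -1, 0], !![0, -1; 1, 0], ?_, ?_⟩, ?_⟩
  · refine Matrix.ext fun i j => ?_
    fin_cases i <;> fin_cases j <;> simp [Matrix.mul_apply, Fin.sum_univ_two]
  · refine Matrix.ext fun i j => ?_
    fin_cases i <;> fin_cases j <;> simp [Matrix.mul_apply, Fin.sum_univ_two]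
  · apply Units.ext
    refine Matrix.ext fun i j => ?_
    fin_cases i <;> fin_cases j <;> simp [wmat]

theorem den_wmat (p : Pt) : den wmat p = ‖p.1‖ ^ 2 + p.2 ^ 2 := by
  simp [den, wmat]

theorem trans_mem_Gam {R : Subring ℍ[ℝ]} {x : ℍ[ℝ]} (hx : x ∈ R) : trans x ∈ Gam R := by
  refine ⟨⟨!![1, ⟨x, hx⟩; 0, 1], !![1, -⟨x, hx⟩; 0, 1], ?_, ?_⟩, ?_⟩
  · refine Matrix.ext fun i j => ?_
    fin_cases i <;> fin_cases j <;> simp [Matrix.mul_apply, Fin.sum_univ_two]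
  · refine Matrix.ext fun i j => ?_
    fin_cases i <;> fin_cases j <;> simp [Matrix.mul_apply, Fin.sum_univ_two]
  · apply Units.ext
    refine Matrix.ext fun i j => ?_
    fin_cases i <;> fin_cases j <;> simp [Pool.Agent.Helper10.Ram5.trans]

theorem den_trans (x : ℍ[ℝ]) (p : Pt) : den (trans x) p = 1 := by
  simp [den, Pool.Agent.Helper10.Ram5.trans]

theorem den_one (p : Pt) : den 1 p = 1 := by
  simp [den]

theorem finite_rows {p : Pt} (hp : p ∈ UH) :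
    {v : ℍ[ℝ] × ℍ[ℝ] | (v.1 ∈ Hur ∧ v.2 ∈ Hur) ∧
      ‖v.1 * p.1 + v.2‖ ^ 2 + ‖v.1‖ ^ 2 * p.2 ^ 2 ≤ 1}.Finite := by
  have hr : 0 < p.2 := hp
  refine ((fin_Hur (1 / p.2)).prod (fin_Hur (1 + 1 / p.2 * ‖p.1‖))).subset ?_
  rintro ⟨c, d⟩ ⟨⟨hc, hd⟩, h⟩
  simp only at hc hd h
  have h1 : ‖c‖ ≤ 1 / p.2 := by
    rw [le_div_iff₀ hr]
    have : (‖c‖ * p.2) ^ 2 ≤ 1 ^ 2 := by
      nlinarith [sq_nonneg ‖c * p.1 + d‖]
    exact abs_le_of_sq_le_sq' this (by norm_num) |>.2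
  have h2 : ‖c * p.1 + d‖ ≤ 1 := by
    have : ‖c * p.1 + d‖ ^ 2 ≤ 1 ^ 2 := by
      nlinarith [mul_nonneg (sq_nonneg ‖c‖) (sq_nonneg p.2)]
    exact abs_le_of_sq_le_sq' this (by norm_num) |>.2
  refine ⟨⟨hc, h1⟩, hd, ?_⟩
  calc ‖d‖ = ‖(c * p.1 + d) - c * p.1‖ := by rw [add_sub_cancel_left]
    _ ≤ ‖c * p.1 + d‖ + ‖c * p.1‖ := norm_sub_le _ _
    _ ≤ 1 + 1 / p.2 * ‖p.1‖ := by
        rw [norm_mul]
        gcongr

/-- the value of the denominator on a bottom row -/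
noncomputable def rden (p : Pt) (v : ℍ[ℝ] × ℍ[ℝ]) : ℝ :=
  ‖v.1 * p.1 + v.2‖ ^ 2 + ‖v.1‖ ^ 2 * p.2 ^ 2

theorem exists_min_den {p : Pt} (hp : p ∈ UH) :
    ∃ γ ∈ Gam Hur, ∀ δ ∈ Gam Hur, den γ p ≤ den δ p := by
  have hfin : {v : ℍ[ℝ] × ℍ[ℝ] | v ∈ Prim Hur ∧ rden p v ≤ 1}.Finite := by
    refine (finite_rows hp).subset ?_
    rintro v ⟨⟨γ, hγ, hv⟩, h⟩
    refine ⟨⟨?_, ?_⟩, h⟩
    · rw [hv]; exact mem_of_isH (gam_isH hγ 1 0)
    · rw [hv]; exact mem_of_isH (gam_isH hγ 1 1)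
  have hne : {v : ℍ[ℝ] × ℍ[ℝ] | v ∈ Prim Hur ∧ rden p v ≤ 1}.Nonempty := by
    refine ⟨((1 : GL2H).1 1 0, (1 : GL2H).1 1 1), ⟨1, (Gam Hur).one_mem, rfl⟩, ?_⟩
    exact (den_one p).le
  obtain ⟨v, ⟨hv1, hv2⟩, hmin⟩ := Set.exists_min_image _ (rden p) hfin hne
  obtain ⟨γ, hγ, hv⟩ := hv1
  have hγd : den γ p = rden p v := by rw [hv]; rfl
  refine ⟨γ, hγ, fun δ hδ => ?_⟩
  have hδd : den δ p = rden p (δ.1 1 0, δ.1 1 1) := rfl
  rw [hγd, hδd]
  by_cases h : rden p (δ.1 1 0, δ.1 1 1) ≤ 1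
  · exact hmin _ ⟨⟨δ, hδ, rfl⟩, h⟩
  · exact hv2.trans (not_le.1 h).le

theorem covers_Hur : Covers Hur 1 (7 / 10) := by
  intro p hp
  obtain ⟨γ, hγ, hmin⟩ := exists_min_den hp
  obtain ⟨x, hx, hxz⟩ := euclid (act γ p).1
  have hq : act γ p ∈ UH := Pool.Agent.Helper13.Ram5.act_mem γ hp
  have hγ1 : nrd γ.1 = 1 := nrd_one_Hur hγ
  have hmem : trans x * γ ∈ Gam Hur := (Gam Hur).mul_mem (trans_mem_Gam hx) hγ
  have hact : act (trans x * γ) p = ((act γ p).1 + x, (act γ p).2) := by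
    rw [Pool.Agent.Helper13.Ram5.act_mul _ _ hγ1 hp, Pool.Agent.Helper13.Ram5.act_trans]
  have hden : den (trans x * γ) p = den γ p := by
    rw [Pool.Agent.Helper13.Ram5.den_mul _ _ hγ1 hp, den_trans, one_mul]
  refine ⟨trans x * γ, hmem, ?_, ?_⟩
  · rw [hact]
    have : ‖(act γ p).1 + x‖ ^ 2 ≤ 1 ^ 2 := by linarith
    exact abs_le_of_sq_le_sq' this (by norm_num) |>.2
  · rw [hact]
    by_contra hlt
    push Not at hlt
    simp only at hlt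
    have h0 : 0 < (act γ p).2 := hq
    have h2 : den wmat (act (trans x * γ) p) < 1 := by
      rw [den_wmat, hact]
      simp only
      nlinarith
    have h3 := hmin _ ((Gam Hur).mul_mem (wmat_mem Hur) hmem)
    rw [Pool.Agent.Helper13.Ram5.den_mul _ _ (nrd_one_Hur hmem) hp, hden] at h3
    have h4 := Pool.Agent.Helper13.Ram5.den_pos γ hp
    nlinarith

end Pool.Agent.Helper10.Ram5L
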