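import Pool.Agent.Helper10.Ram5.Defs

set_option autoImplicit false

/-!
# Auxiliary definitions shared by the modules (not part of the final statement)
-/

namespace Pool.Agent.Helper10.Ram5

open MeasureTheory
open scoped Quaternion

noncomputable instance instMeasurableSpaceQuat : MeasurableSpace ℍ[ℝ] := borel _

instance instBorelSpaceQuat : BorelSpace ℍ[ℝ] := ⟨rfl⟩

instance instIsAddHaarMeasurePt : (volume : Measure Pt).IsAddHaarMeasure :=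
  Measure.prod.instIsAddHaarMeasure _ _

/-- square of the Dieudonné determinant:
`|a|² |d|² + |b|² |c|² - 2 Re (a c* d b*)` for `g = (a b; c d)` -/
noncomputable def nrd (g : Matrix (Fin 2) (Fin 2) ℍ[ℝ]) : ℝ :=
  ‖g 0 0‖ ^ 2 * ‖g 1 1‖ ^ 2 + ‖g 0 1‖ ^ 2 * ‖g 1 0‖ ^ 2
    - 2 * (g 0 0 * star (g 1 0) * g 1 1 * star (g 0 1)).re

/-- hyperbolic volume `r⁻⁵ dz dr` on the upper half-space -/
noncomputable def hyp : Measure Pt :=
  (volume.restrict UH).withDensity fun p => ENNReal.ofReal ((p.2 ^ 5)⁻¹)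

/-- squared hyperbolic norm of the gradient -/
noncomputable def gsq (f : Pt → ℂ) (p : Pt) : ℝ :=
  p.2 ^ 2 * ∑ k : Fin 5, ‖pd (dir k) f p‖ ^ 2

/-- bilinear hyperbolic gradient product -/
noncomputable def gdot (f h : Pt → ℂ) (p : Pt) : ℂ :=
  (p.2 : ℂ) ^ 2 * ∑ k : Fin 5, pd (dir k) f p * pd (dir k) h p

/-- weak form of the eigenvalue equation `lap u = - lam u` on the upper half-space -/
def WeakEig (lam : ℂ) (u : Pt → ℂ) : Prop :=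
  ∀ φ : Pt → ℂ, ContDiff ℝ 1 φ → HasCompactSupport φ → tsupport φ ⊆ UH →
    ∫ p, gdot u φ p ∂hyp = lam * ∫ p, u p * φ p ∂hyp

/-- discrete subrings all of whose `GL₂` elements have Dieudonné determinant one -/
structure NiceRing (R : Subring ℍ[ℝ]) : Prop where
  disc : ∀ x ∈ R, x ≠ 0 → 1 ≤ ‖x‖
  fin : ∀ C : ℝ, {x : ℍ[ℝ] | x ∈ R ∧ ‖x‖ ≤ C}.Finite
  nrd_one : ∀ γ ∈ Gam R, nrd γ.1 = 1

/-- every orbit meets the Siegel-type set `‖z‖ ≤ C, a ≤ r` -/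
def Covers (R : Subring ℍ[ℝ]) (C a : ℝ) : Prop :=
  ∀ p ∈ UH, ∃ γ ∈ Gam R, ‖(act γ p).1‖ ≤ C ∧ a ≤ (act γ p).2

/-- `κ` is a `C¹` partition of unity for `Gam R` supported in a Siegel-type set -/
structure Kap (R : Subring ℍ[ℝ]) (κ : Pt → ℝ) (C a : ℝ) : Prop where
  pos : 0 < a
  smooth : ContDiff ℝ 1 κ
  nonneg : ∀ p, 0 ≤ κ p
  supp : ∀ p, κ p ≠ 0 → ‖p.1‖ ≤ C ∧ a ≤ p.2
  sum : ∀ p ∈ UH, HasSum (fun γ : Gam R => κ (act γ p)) 1

/-- a finite family of `C²` functions permuted by `Gam R` -/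
structure Sys (R : Subring ℍ[ℝ]) (ι : Type) (u : ι → Pt → ℂ) : Prop where
  smooth : ∀ i, ContDiffOn ℝ 2 (u i) UH
  perm : ∀ γ ∈ Gam R, ∃ σ : Equiv.Perm ι, ∀ i, ∀ p ∈ UH, u i (act γ p) = u (σ i) p

/-- bottom rows of elements of `Gam R` -/
def Prim (R : Subring ℍ[ℝ]) : Set (ℍ[ℝ] × ℍ[ℝ]) := {v | ∃ γ ∈ Gam R, v = (γ.1 1 0, γ.1 1 1)}

/-- inverse height: `uval (c,d) (z,r) = (|c z + d|² + |c|² r²) / r` -/
noncomputable def uval (v : ℍ[ℝ] × ℍ[ℝ]) (p : Pt) : ℝ :=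
  (‖v.1 * p.1 + v.2‖ ^ 2 + ‖v.1‖ ^ 2 * p.2 ^ 2) / p.2

/-- `R` is the lattice `par ℤ⁴` -/
def IsLat (R : Subring ℍ[ℝ]) : Prop :=
  ∀ x : ℍ[ℝ], x ∈ R ↔ ∃ n : Fin 4 → ℤ, x = par fun i => (n i : ℝ)

/-- the weight: `ψ(r) = min (c - 1/r) m` truncated at `0` -/
noncomputable def psi (c m : ℝ) (r : ℝ) : ℝ := max 0 (min (c - 1 / r) m)

/-- the lower bound function for the energy density -/
noncomputable def Qf (c s R1 M : ℝ) (r : ℝ) : ℝ :=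
  if r < R1 then max 0 (s * (c - 1 / r)) else M

/-- integral over the cell `{z = ν par x, x ∈ [0,1]⁴}` at height `r`, of a nonnegative function -/
noncomputable def cellInt (ν : ℍ[ℝ]) (F : Pt → ENNReal) (r : ℝ) : ENNReal :=
  ∫⁻ x in Set.Icc (0 : Fin 4 → ℝ) 1, F (ν * par x, r)

/-- right integrand of the radial inequality -/
noncomputable def gR (ψ : ℝ → ℝ) (μ : ℝ) (g g' : ℝ → ℂ) (r : ℝ) : ℝ :=
  ψ r * (r ^ 5)⁻¹ * (r ^ 2 * (‖g' r‖ ^ 2 + μ * ‖g r‖ ^ 2))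

/-- left integrand of the radial inequality -/
noncomputable def gL (Q : ℝ → ℝ) (g : ℝ → ℂ) (r : ℝ) : ℝ := Q r * (r ^ 5)⁻¹ * ‖g r‖ ^ 2

/-- the boundary term at `x`, for the value `T` of the test function at `x` -/
noncomputable def bt (ψ : ℝ → ℝ) (g : ℝ → ℂ) (x T : ℝ) : ℝ := ψ x * T / x ^ 4 * ‖g x‖ ^ 2

/-- the radial inequality on `(x, ∞)`, when the test function has the value `T` at `x` -/
def Tail (ψ Q : ℝ → ℝ) (μ x T : ℝ) : Prop :=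
  ∀ (g g' : ℝ → ℂ) (B : ℝ), (∀ r, 0 < r → HasDerivAt g (g' r) r) →
    ContinuousOn g' (Set.Ioi 0) → (∀ r, 0 < r → ‖g r‖ ≤ B) →
    (∫⁻ r in Set.Ioi x, ENNReal.ofReal (gL Q g r)) + ENNReal.ofReal (-bt ψ g x T) ≤
      (∫⁻ r in Set.Ioi x, ENNReal.ofReal (gR ψ μ g g' r)) + ENNReal.ofReal (bt ψ g x T)

/-- the energy density for `ψ = p0 - p1 / r` and the test function `τ = t0 + t1 r`:
`ψ (μ r² - τ² + 4 τ - r τ') - r ψ' τ` -/
noncomputable def qq (p0 p1 t0 t1 μ : ℝ) (r : ℝ) : ℝ :=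
  (p0 - p1 / r) * (μ * r ^ 2 - (t0 + t1 * r) ^ 2 + 4 * (t0 + t1 * r) - r * t1)
    - p1 / r * (t0 + t1 * r)

end Pool.Agent.Helper10.Ram5
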