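import Pool.Agent.Helper10.Ram5.Base
import Pool.Agent.Helper80.Ram.Strip

set_option autoImplicit false

/-!
# Pieces of the radial certificate in dimension 5
-/

namespace Pool.Agent.Helper10.Ram5

open MeasureTheory Set Filter Topology

/-- one piece, certified by the Bernstein coefficients of a cubic; here
`ψ = p0 - p1 / r` and `Q = L1 + L0 / r` on the piece -/
theorem cons5 {ψ Q : ℝ → ℝ} {μ : ℝ} (hμ : 0 ≤ μ) (hψ0 : ∀ r, 0 < r → 0 ≤ ψ r)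
    (hQ0 : ∀ r, 0 < r → 0 ≤ Q r)
    {x y Tx Ty : ℝ} (p0 p1 L1 L0 t0 t1 : ℝ) (hx : 0 < x) (hxy : x < y)
    (hTx : Tx = t0 + t1 * x) (hTy : Ty = t0 + t1 * y)
    (hP : ∀ r ∈ Icc x y, ψ r = p0 - p1 / r)
    (hQ : ∀ r ∈ Ioo x y, Q r ≤ L1 + L0 / r)
    (hA : ∀ A0 A1 A2 A3 : ℝ, A0 = p1 * t0 ^ 2 - 5 * p1 * t0 - L0 →
      A1 = -L1 + 2 * p1 * t0 * t1 - 4 * p1 * t1 + p0 * (4 * t0 - t0 ^ 2) →
      A2 = p1 * (t1 ^ 2 - μ) + p0 * (3 * t1 - 2 * t0 * t1) → A3 = p0 * (μ - t1 ^ 2) →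
      0 ≤ A0 + A1 * x + A2 * x ^ 2 + A3 * x ^ 3 ∧
      0 ≤ 3 * A0 + A1 * (2 * x + y) + A2 * (x ^ 2 + 2 * x * y) + 3 * A3 * x ^ 2 * y ∧
      0 ≤ 3 * A0 + A1 * (x + 2 * y) + A2 * (y ^ 2 + 2 * x * y) + 3 * A3 * x * y ^ 2 ∧
      0 ≤ A0 + A1 * y + A2 * y ^ 2 + A3 * y ^ 3)
    (hT : Tail ψ Q μ y Ty) : Tail ψ Q μ x Tx := by
  refine Tail.cons hμ hψ0 hQ0 p0 p1 t0 t1 hx hxy.le hTx hTy hP ?_ hT
  intro r hr
  have hr0 : 0 < r := hx.trans hr.1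
  obtain ⟨h0, h1, h2, h3⟩ := hA _ _ _ _ rfl rfl rfl rfl
  have hb := Pool.Agent.Helper80.Ram.bern3 hxy hr.1.le hr.2.le h0 h1 h2 h3
  refine (hQ r hr).trans ?_
  have key : (qq p0 p1 t0 t1 μ r - (L1 + L0 / r)) * r =
      (p1 * t0 ^ 2 - 5 * p1 * t0 - L0) +
      (-L1 + 2 * p1 * t0 * t1 - 4 * p1 * t1 + p0 * (4 * t0 - t0 ^ 2)) * r +
      (p1 * (t1 ^ 2 - μ) + p0 * (3 * t1 - 2 * t0 * t1)) * r ^ 2 + p0 * (μ - t1 ^ 2) * r ^ 3 := by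
    unfold qq
    field_simp
    ring
  have : 0 ≤ (qq p0 p1 t0 t1 μ r - (L1 + L0 / r)) * r := by rw [key]; exact hb
  have := nonneg_of_mul_nonneg_left this hr0
  linarith

/-- the last piece -/
theorem last5 {ψ Q : ℝ → ℝ} {μ : ℝ} (hμ : 0 ≤ μ) (hψ0 : ∀ r, 0 < r → 0 ≤ ψ r)
    (hQ0 : ∀ r, 0 < r → 0 ≤ Q r) {x Tx m M : ℝ} (t0 t1 : ℝ) (hx : 0 < x)
    (hTx : Tx = t0 + t1 * x) (hP : ∀ r, x ≤ r → ψ r = m) (hQ : ∀ r, x < r → Q r ≤ M)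
    (hA : ∀ A0 A1 A2 : ℝ, A0 = m * (4 * t0 - t0 ^ 2) - M →
      A1 = m * (3 * t1 - 2 * t0 * t1) → A2 = m * (μ - t1 ^ 2) →
      0 ≤ A0 + A1 * x + A2 * x ^ 2 ∧ 0 ≤ A1 + 2 * A2 * x ∧ 0 ≤ A2) :
    Tail ψ Q μ x Tx := by
  refine Tail.last hμ hψ0 hQ0 t0 t1 hx hTx hP ?_
  intro r hr
  obtain ⟨h0, h1, h2⟩ := hA _ _ _ rfl rfl rfl
  refine (hQ r hr).trans ?_
  have hu : 0 ≤ r - x := sub_nonneg.2 hr.le
  have key : qq m 0 t0 t1 μ r - M =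
      (m * (4 * t0 - t0 ^ 2) - M + m * (3 * t1 - 2 * t0 * t1) * x + m * (μ - t1 ^ 2) * x ^ 2) +
      (m * (3 * t1 - 2 * t0 * t1) + 2 * (m * (μ - t1 ^ 2)) * x) * (r - x) +
      m * (μ - t1 ^ 2) * (r - x) ^ 2 := by
    unfold qq
    ring
  have : 0 ≤ qq m 0 t0 t1 μ r - M := by rw [key]; positivity
  linarith

/-! ## the weights `psi` and `Qf` -/

theorem psi_nonneg (c m r : ℝ) : 0 ≤ psi c m r := le_max_left _ _

theorem measurable_psi (c m : ℝ) : Measurable (psi c m) := by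
  unfold psi
  fun_prop

theorem measurable_Qf (c s R1 M : ℝ) : Measurable (Qf c s R1 M) := by
  unfold Qf
  exact Measurable.ite measurableSet_Iio (by fun_prop) measurable_const

theorem Qf_nonneg {c s R1 M : ℝ} (hM : 0 ≤ M) (r : ℝ) : 0 ≤ Qf c s R1 M r := by
  unfold Qf
  split_ifs
  · exact le_max_left _ _
  · exact hM

theorem psi_line {c m r : ℝ} (hr : 0 < r) (h1 : 1 ≤ c * r) (h3 : (c - m) * r ≤ 1) :
    psi c m r = c - 1 / r := by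
  have e1 : 0 ≤ c - 1 / r := by
    rw [sub_nonneg, div_le_iff₀ hr]; exact h1
  have e3 : c - 1 / r ≤ m := by
    have : c - m ≤ 1 / r := by rw [le_div_iff₀ hr]; exact h3
    linarith
  unfold psi
  rw [min_eq_left e3, max_eq_right e1]

theorem psi_cap {c m r : ℝ} (hm : 0 ≤ m) (hr : 0 < r) (h3 : 1 ≤ (c - m) * r) :
    psi c m r = m := by
  have e3 : m ≤ c - 1 / r := by
    have : 1 / r ≤ c - m := by rw [div_le_iff₀ hr]; exact h3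
    linarith
  unfold psi
  rw [min_eq_right e3, max_eq_right hm]

theorem Qf_low {c s R1 M r : ℝ} (hs : 0 ≤ s) (hr : 0 < r) (h1 : 1 ≤ c * r) (h2 : r < R1) :
    Qf c s R1 M r = s * c + (-s) / r := by
  have e1 : 0 ≤ c - 1 / r := by
    rw [sub_nonneg, div_le_iff₀ hr]; exact h1
  unfold Qf
  rw [if_pos h2, max_eq_right (mul_nonneg hs e1)]
  ring

theorem Qf_high {c s R1 M r : ℝ} (h2 : R1 ≤ r) : Qf c s R1 M r = M := by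
  unfold Qf
  rw [if_neg (not_lt.2 h2)]

end Pool.Agent.Helper10.Ram5
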